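import Pool.Agent.Q72.EL.Reg0
import Pool.Agent.Q206.EG.Tool

/-!
Project EL (helper72): regions from good points at infinity.
-/

set_option autoImplicit false

namespace Pool.Agent.Q72.EL

open MvPolynomial Filter Topology Metric

/-- for large `T` -/
theorem large (K δ r : ℝ) (hδ : 0 < δ) (hr : 0 < r) (T₀ C : ℝ) : ∃ T : ℝ, K ≤ T ∧ 2 ≤ T ∧
    T₀ ≤ T ∧ C ≤ T ∧ T⁻¹ < r ∧ K * Real.log T + Real.pi ≤ δ * T ∧
    K * Real.log T / T + Real.pi / T < r / 2 := by
  have h1 : Tendsto (fun T : ℝ => (K * Real.log T + Real.pi) / T) atTop (𝓝 0) := by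
    have h2 : Tendsto (fun T : ℝ => Real.log T / T) atTop (𝓝 0) := by
      have := Real.isLittleO_log_id_atTop.tendsto_div_nhds_zero
      simpa using this
    have h3 : Tendsto (fun T : ℝ => Real.pi / T) atTop (𝓝 0) :=
      tendsto_const_nhds.div_atTop tendsto_id
    have h4 := (h2.const_mul K).add h3
    simp only [mul_zero, add_zero] at h4
    refine h4.congr fun T => ?_
    rw [add_div, mul_div_assoc]
  have h5 : ∀ᶠ T : ℝ in atTop, (K * Real.log T + Real.pi) / T < min δ (r / 2) :=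
    h1.eventually_lt_const (lt_min hδ (by linarith))
  obtain ⟨T, hT, hT1, hT2, hT3, hT4, hT5, hT6⟩ := (h5.and ((eventually_ge_atTop K).and
    ((eventually_ge_atTop 2).and ((eventually_ge_atTop T₀).and ((eventually_ge_atTop C).and
      ((eventually_gt_atTop (r⁻¹)).and (eventually_gt_atTop 0))))))).exists
  refine ⟨T, hT1, hT2, hT3, hT4, ?_, ?_, ?_⟩
  · rw [inv_lt_comm₀ hT6 hr]; exact hT5
  · have h6 := (hT.trans_le (min_le_left _ _)).le
    rwa [div_le_iff₀ hT6] at h6
  · have h6 := hT.trans_le (min_le_right _ _)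
    rwa [add_div] at h6

theorem region (hlow : S_low) : S_region := by
  intro n c I a lam hI htr hgood R hR
  obtain ⟨μ1, -, κ1, hG1⟩ := hgood 1 one_pos
  have hind := ind_of_good hG1
  obtain ⟨ρ, β, hρ0, hρβ, hρinv⟩ := hlow n c I a _ hI htr hind (sheetAt_of_good hG1) R hR
  clear hG1
  obtain ⟨D1, hD1, hβ⟩ := Pool.Agent.Q206.EG.pb β 2
  refine ⟨max 2 (D1 + 1), fun K hK => ?_⟩
  have hK0 : 0 < K := by linarith
  obtain ⟨μ, hμ, κ, hG⟩ := hgood (1 / (4 * K)) (by positivity)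
  obtain ⟨ω, hω0, hωc, hωd, hωg⟩ := sheetAt_of_good hG
  clear hG hgood
  set z : Fin n → ℂ := fun l =>
    ∑ j, (μ j : ℂ) * ((a l j : ℚ) : ℂ) + Complex.I * (κ l : ℂ) with hz
  have hωs : ∀ᶠ p in 𝓝 (0 : ℂ × (Fin n → ℂ)), ‖ω p‖ < 1 / (4 * K) := by
    have h1 : ContinuousAt (fun p => ‖ω p‖) 0 := hωc.norm
    have h2 : ‖ω 0‖ < 1 / (4 * K) := by rw [hω0, norm_zero]; positivity
    exact h1.eventually_lt_const h2
  obtain ⟨r, hr, hball⟩ := Metric.eventually_nhds_iff_ball.1 (hωs.and (hωd.and hωg))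
  obtain ⟨κ', hκ', hκ'0⟩ := dense_imag (top_ne_zero hρ0) κ (ε := r / 4) (by positivity)
  obtain ⟨δ, hδ, T₀, hlb⟩ := low_bound hκ'0
  set C : ℝ := ‖z‖ + r + ∑ l, ∑ j, |((a l j : ℚ) : ℝ)| with hC
  obtain ⟨T, hTK, hT2, hTT, hTC, hTr, hTδ, hTr2⟩ := large K δ r hδ hr T₀ C
  have hT0 : 0 < T := by linarith
  have hTc : (T : ℂ) ≠ 0 := by exact_mod_cast hT0.ne'
  set M : Fin n → ℤ := fun l => round (-(T * κ' l) / (2 * Real.pi)) with hM
  set q : Fin n → ℂ := fun l => 2 * Real.pi * Complex.I * (M l : ℂ) with hq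
  -- the distance of the centre
  have hqκ : ‖q + fun l => Complex.I * ((T : ℂ) * (κ' l : ℂ))‖ ≤ Real.pi := by
    rw [pi_norm_le_iff_of_nonneg Real.pi_pos.le]
    intro l
    have h1 : (q + fun l => Complex.I * ((T : ℂ) * (κ' l : ℂ))) l =
        Complex.I * ((2 * Real.pi * (M l : ℝ) + T * κ' l : ℝ) : ℂ) := by
      simp only [hq, Pi.add_apply]
      push_cast
      ring
    rw [h1, norm_mul, Complex.norm_I, one_mul, Complex.norm_real, Real.norm_eq_abs]
    have h2 := abs_sub_round (-(T * κ' l) / (2 * Real.pi))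
    have h3 : 2 * Real.pi * (M l : ℝ) + T * κ' l =
        -(2 * Real.pi * (-(T * κ' l) / (2 * Real.pi) - (M l : ℝ))) := by
      field_simp
      ring
    rw [h3, abs_neg, abs_mul, abs_of_pos (by positivity : 0 < 2 * Real.pi)]
    have h4 : |-(T * κ' l) / (2 * Real.pi) - (M l : ℝ)| ≤ 1 / 2 := h2
    nlinarith [Real.pi_pos]
  set p : (Fin n → ℂ) → ℂ × (Fin n → ℂ) := fun u =>
    (-(T : ℂ)⁻¹, fun l => -((T : ℂ)⁻¹ * u l) - Complex.I * (κ l : ℂ)) with hp
  have hpd : Differentiable ℂ p := by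
    refine (differentiable_const _).prodMk (differentiable_pi.2 fun l => ?_)
    exact (((differentiable_apply l).const_mul _).neg).sub_const _
  have hpne : ∀ u, (p u).1 ≠ 0 := fun u => neg_ne_zero.2 (inv_ne_zero hTc)
  set w : (Fin n → ℂ) → Fin c → ℂ := fun u j => -(T : ℂ) * ((μ j : ℂ) + ω (p u) j) with hw
  have hX : ∀ u, (fun l => u l + ∑ j, w u j * ((a l j : ℚ) : ℂ) : Fin n → ℂ) =
      (p u).1⁻¹ • (fun l => z l + (p u).2 l + ∑ j, ω (p u) j * ((a l j : ℚ) : ℂ)) := by
    intro u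
    funext l
    simp only [Pi.smul_apply, smul_eq_mul, hp, hz, hw]
    have h1 : (-(T : ℂ)⁻¹)⁻¹ = -(T : ℂ) := by rw [inv_neg, inv_inv]
    rw [h1]
    have h2 : ∑ j, -(T : ℂ) * ((μ j : ℂ) + ω (p u) j) * ((a l j : ℚ) : ℂ) =
        -(T : ℂ) * (∑ j, (μ j : ℂ) * ((a l j : ℚ) : ℂ) +
          ∑ j, ω (p u) j * ((a l j : ℚ) : ℂ)) := by
      rw [← Finset.sum_add_distrib, Finset.mul_sum]
      exact Finset.sum_congr rfl fun j _ => by ring
    rw [h2]
    have h3 : (T : ℂ) * (T : ℂ)⁻¹ = 1 := mul_inv_cancel₀ hTc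
    linear_combination (-(u l)) * h3
  have hpr : ∀ u ∈ ball q (K * Real.log T), p u ∈ ball (0 : ℂ × (Fin n → ℂ)) r := by
    intro u hu
    rw [mem_ball, dist_eq_norm] at hu
    rw [mem_ball_zero_iff, Prod.norm_def, max_lt_iff]
    constructor
    · simp only [hp, norm_neg, norm_inv, Complex.norm_real, Real.norm_of_nonneg hT0.le]
      exact hTr
    · have h1 : (p u).2 = -((T : ℂ)⁻¹ • (u - q)) - (T : ℂ)⁻¹ •
          (q + fun l => Complex.I * ((T : ℂ) * (κ' l : ℂ))) +
            fun l => Complex.I * ((κ' l - κ l : ℝ) : ℂ) := by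
        funext l
        simp only [hp, Pi.add_apply, Pi.sub_apply, Pi.neg_apply, Pi.smul_apply, smul_eq_mul]
        push_cast
        have h3 : (T : ℂ)⁻¹ * (T : ℂ) = 1 := inv_mul_cancel₀ hTc
        linear_combination (Complex.I * (κ' l : ℂ)) * h3
      rw [h1]
      have h2 : ‖(fun l => Complex.I * ((κ' l - κ l : ℝ) : ℂ) : Fin n → ℂ)‖ ≤ r / 4 := by
        rw [pi_norm_le_iff_of_nonneg (by positivity)]
        intro l
        rw [norm_mul, Complex.norm_I, one_mul, Complex.norm_real, Real.norm_eq_abs]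
        exact (hκ' l).le
      have hTn : ‖(T : ℂ)⁻¹‖ = T⁻¹ := by
        rw [norm_inv, Complex.norm_real, Real.norm_of_nonneg hT0.le]
      calc _ ≤ ‖-((T : ℂ)⁻¹ • (u - q)) - (T : ℂ)⁻¹ •
            (q + fun l => Complex.I * ((T : ℂ) * (κ' l : ℂ)))‖ +
            ‖(fun l => Complex.I * ((κ' l - κ l : ℝ) : ℂ) : Fin n → ℂ)‖ := norm_add_le _ _
        _ ≤ (‖-((T : ℂ)⁻¹ • (u - q))‖ + ‖(T : ℂ)⁻¹ •
            (q + fun l => Complex.I * ((T : ℂ) * (κ' l : ℂ)))‖) + r / 4 :=
              add_le_add (norm_sub_le _ _) h2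
        _ ≤ (T⁻¹ * (K * Real.log T) + T⁻¹ * Real.pi) + r / 4 := by
            rw [norm_neg, norm_smul, norm_smul, hTn]
            gcongr
        _ = (K * Real.log T / T + Real.pi / T) + r / 4 := by ring
        _ < r := by linarith
  refine ⟨T, hTK, hT2, M, w, ?_, fun u hu => ?_⟩
  · intro u hu
    refine DifferentiableAt.differentiableWithinAt ?_
    have h1 : DifferentiableAt ℂ (fun v => ω (p v)) u :=
      DifferentiableAt.comp (g := ω) u (hball _ (hpr u hu)).2.1 (hpd u)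
    refine differentiableAt_pi.2 fun j => ?_
    exact ((differentiableAt_pi.1 h1 j).const_add _).const_mul _
  · obtain ⟨hω1, -, hω2⟩ := hball _ (hpr u hu)
    have hu' := hpr u hu
    have hωj : ∀ j, ‖ω (p u) j‖ ≤ 1 / (4 * K) := fun j =>
      (norm_le_pi_norm _ j).trans hω1.le
    have hXI : ∀ g ∈ I, eval (fun l => u l + ∑ j, w u j * ((a l j : ℚ) : ℂ)) g = 0 := by
      intro g hg
      rw [hX u]
      exact hω2 (hpne u) g hg
    have hXn : ‖(fun l => u l + ∑ j, w u j * ((a l j : ℚ) : ℂ) : Fin n → ℂ)‖ ≤ T ^ (2 : ℝ) := by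
      rw [hX u, norm_smul]
      have h1 : ‖(p u).1⁻¹‖ = T := by
        simp only [hp, inv_neg, inv_inv, norm_neg, Complex.norm_real,
          Real.norm_of_nonneg hT0.le]
      rw [h1]
      have h2 : ‖(fun l => z l + (p u).2 l + ∑ j, ω (p u) j * ((a l j : ℚ) : ℂ) :
          Fin n → ℂ)‖ ≤ C := by
        have hC0 : 0 ≤ C := by positivity
        rw [pi_norm_le_iff_of_nonneg hC0]
        intro l
        have h3 : ‖(p u).2 l‖ ≤ r := by
          rw [mem_ball_zero_iff, Prod.norm_def, max_lt_iff] at hu'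
          exact (norm_le_pi_norm _ l).trans hu'.2.le
        have h4 : ‖∑ j, ω (p u) j * ((a l j : ℚ) : ℂ)‖ ≤ ∑ j, |((a l j : ℚ) : ℝ)| := by
          refine (norm_sum_le _ _).trans (Finset.sum_le_sum fun j _ => ?_)
          rw [norm_mul]
          have h5 : ‖((a l j : ℚ) : ℂ)‖ = |((a l j : ℚ) : ℝ)| := by
            rw [← Complex.ofReal_ratCast, Complex.norm_real, Real.norm_eq_abs]
          rw [h5]
          have h6 : ‖ω (p u) j‖ ≤ 1 := by
            refine (hωj j).trans ?_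
            rw [div_le_one (by positivity)]
            linarith
          exact mul_le_of_le_one_left (abs_nonneg _) h6
        have h7 : ∑ j, |((a l j : ℚ) : ℝ)| ≤ ∑ l, ∑ j, |((a l j : ℚ) : ℝ)| :=
          Finset.single_le_sum (f := fun l => ∑ j, |((a l j : ℚ) : ℝ)|)
            (fun l _ => Finset.sum_nonneg fun j _ => abs_nonneg _) (Finset.mem_univ l)
        calc ‖z l + (p u).2 l + ∑ j, ω (p u) j * ((a l j : ℚ) : ℂ)‖
            ≤ ‖z l‖ + ‖(p u).2 l‖ + ‖∑ j, ω (p u) j * ((a l j : ℚ) : ℂ)‖ := norm_add₃_le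
          _ ≤ ‖z‖ + r + ∑ l, ∑ j, |((a l j : ℚ) : ℝ)| := by
            have := norm_le_pi_norm z l
            linarith
      calc T * _ ≤ T * C := by gcongr
        _ ≤ T * T := by gcongr
        _ = T ^ (2 : ℝ) := by rw [Real.rpow_two]; ring
    refine ⟨hXI, fun j => ?_, ?_, ?_⟩
    · -- the real parts
      have h1 : (w u j).re + lam j * T = T * ((lam j - μ j) - (ω (p u) j).re) := by
        simp only [hw, Complex.mul_re, Complex.neg_re, Complex.ofReal_re, Complex.neg_im,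
          Complex.ofReal_im, neg_zero, zero_mul, sub_zero, Complex.add_re]
        ring
      rw [h1, abs_mul, abs_of_pos hT0]
      have h2 : |(lam j - μ j) - (ω (p u) j).re| ≤ 1 / (4 * K) + 1 / (4 * K) := by
        refine (abs_sub _ _).trans (add_le_add ?_ ?_)
        · rw [abs_sub_comm]; exact (hμ j).le
        · exact (Complex.abs_re_le_norm _).trans (hωj j)
      calc T * _ ≤ T * (1 / (4 * K) + 1 / (4 * K)) := by gcongr
        _ = T / K / 2 := by field_simp; ring
        _ ≤ T / K := by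
          have : 0 ≤ T / K := by positivity
          linarith
    · exact hXn.trans (Real.rpow_le_rpow_of_exponent_le (by linarith) (le_max_left _ _))
    · have h1 : T⁻¹ ≤ ‖eval u ρ‖ := by
        refine hlb T hTT u ?_
        have h2 : u - (fun l => (T : ℂ) * -(Complex.I * (κ' l : ℂ))) =
            (u - q) + (q + fun l => Complex.I * ((T : ℂ) * (κ' l : ℂ))) := by
          funext l
          simp only [Pi.sub_apply, Pi.add_apply]
          ring
        rw [h2]
        rw [mem_ball, dist_eq_norm] at hu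
        exact (norm_add_le _ _).trans ((add_le_add hu.le hqκ).trans hTδ)
      have h3 : eval u ρ = eval (fun l => u l + ∑ j, w u j * ((a l j : ℚ) : ℂ)) β *
          eval (fun l => u l + ∑ j, w u j * ((a l j : ℚ) : ℂ)) R := by
        have h4 := hXI _ hρβ
        rw [map_sub, map_mul, sub_eq_zero] at h4
        rw [← h4]
        exact (hρinv u (w u)).symm
      rw [h3, norm_mul] at h1
      have h5 := hβ T hT2 _ hXn
      have h6 : T⁻¹ ≤ T ^ D1 * ‖eval (fun l => u l + ∑ j, w u j * ((a l j : ℚ) : ℂ)) R‖ :=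
        h1.trans (by gcongr)
      have h7 : T ^ (-(max 2 (D1 + 1))) ≤ T ^ (-(D1 + 1)) :=
        Real.rpow_le_rpow_of_exponent_le (by linarith) (neg_le_neg (le_max_right _ _))
      refine h7.trans ?_
      have h8 : T ^ (-(D1 + 1)) = T⁻¹ / T ^ D1 := by
        rw [neg_add, Real.rpow_add hT0, Real.rpow_neg hT0.le, Real.rpow_neg_one]
        ring
      rw [h8, div_le_iff₀ (Real.rpow_pos_of_pos hT0 _)]
      linarith

end Pool.Agent.Q72.EL
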