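import Pool.Agent.Q72.EL.Ff
import Pool.Agent.Q72.EL.Region
import Pool.Agent.Q72.EG.All
import Pool.Agent.Q162.EL.LOW
import Pool.Agent.Q208.EL.LIFT
import Pool.Agent.Q208.EL.NEWT
import Pool.Agent.Q151.EL.Val
import Pool.Agent.Q151.EL.Slc
import Pool.Agent.Q151.EL.Solve
import Pool.Agent.Q98.EL.CONT
import Pool.Agent.Q2.EL.ENDS2

/-! Project EL (helper72): all parts. -/

set_option autoImplicit false

namespace Pool.Agent.Q72.EL

theorem all_region : S_region := region Pool.Agent.Q162.EL.low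

theorem all_solve (h1 : S_dom) (h2 : S_slope) : S_solve :=
  Pool.Agent.Q151.EL.solve
    (Pool.Agent.Q208.EL.lift h1 h2 Pool.Agent.Q208.EL.newt Pool.Agent.Q151.EL.val
      Pool.Agent.Q166.EG.lift0 Pool.Agent.Q111.EG.sep)
    (Pool.Agent.Q98.EL.cont h1 Pool.Agent.Q166.EG.alg) (Pool.Agent.Q151.EL.slc h2)
    Pool.Agent.Q177.EG.log Pool.Agent.Q177.EG.bc Pool.Agent.Q252.EG.fix

theorem all_ffM (h1 : S_dom) (h2 : S_slope) : S_ffM :=
  ffM Pool.Agent.Q2.EL.ends all_region (all_solve h1 h2)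

end Pool.Agent.Q72.EL
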