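import Pool.Agent.Q72.EG.Def

/-!
Project EL (helper72): exponential points on varieties `V ⊆ ℂ^n × (ℂ^*)^n` of dimension `n` whose
projection to `ℂ^n` has any dimension `n - c`.  Definitions.  (Compare project EG: there `c = 1`.)
-/

set_option autoImplicit false

namespace Pool.Agent.Q72.EL

open MvPolynomial Filter Topology Metric

/-- the coefficient of `Y^α` in the polynomial `H(Y, x)` -/
noncomputable def cf {n c : ℕ} (H : MvPolynomial (Fin c ⊕ Fin n) ℂ) (α : Fin c →₀ ℕ) :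
    MvPolynomial (Fin n) ℂ :=
  coeff α (sumAlgEquiv ℂ (Fin c) (Fin n) H)

/-- `H(Y, x) = ∑ cf H α (x) Y^α` -/
theorem aeval_sum {E : Type} [CommRing E] [Algebra ℂ E] {n c : ℕ} (Y : Fin c → E) (x : Fin n → E)
    (H : MvPolynomial (Fin c ⊕ Fin n) ℂ) :
    aeval (Sum.elim Y x) H =
      ∑ α ∈ (sumAlgEquiv ℂ (Fin c) (Fin n) H).support, aeval x (cf H α) * ∏ j, Y j ^ α j := by
  have h1 : ∀ G : MvPolynomial (Fin c) (MvPolynomial (Fin n) ℂ),
      (eval₂Hom (aeval x : MvPolynomial (Fin n) ℂ →ₐ[ℂ] E).toRingHom Y) G =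
        ∑ α ∈ G.support, aeval x (coeff α G) * ∏ j, Y j ^ α j := by
    intro G
    rw [coe_eval₂Hom, eval₂_eq']
    rfl
  have h2 : aeval (Sum.elim Y x) H =
      (eval₂Hom (aeval x : MvPolynomial (Fin n) ℂ →ₐ[ℂ] E).toRingHom Y)
        (sumAlgEquiv ℂ (Fin c) (Fin n) H) := by
    induction H using MvPolynomial.induction_on with
    | C r =>
      rw [sumAlgEquiv_C_inl, aeval_C, coe_eval₂Hom, eval₂_C]
      simp
    | add p q hp hq => rw [map_add, map_add, map_add, hp, hq]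
    | mul_X p i hp =>
      rw [map_mul, map_mul, map_mul, hp]
      congr 1
      rcases i with j | l
      · rw [sumAlgEquiv_X_inl, aeval_X, coe_eval₂Hom, eval₂_X]
        rfl
      · rw [sumAlgEquiv_X_inr, aeval_X, coe_eval₂Hom, eval₂_C]
        simp
  rw [h2, h1]
  rfl

theorem eval_sum' {n c : ℕ} (Y : Fin c → ℂ) (x : Fin n → ℂ) (H : MvPolynomial (Fin c ⊕ Fin n) ℂ) :
    eval (Sum.elim Y x) H =
      ∑ α ∈ (sumAlgEquiv ℂ (Fin c) (Fin n) H).support, eval x (cf H α) * ∏ j, Y j ^ α j := by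
  have h := aeval_sum Y x H
  simp only [MvPolynomial.coe_aeval_eq_eval, MvPolynomial.aeval_eq_eval] at h
  exact h

/-- admissible points over the variety of `I`: `x` is at most of size `T^D`, the polynomial `R` is
at least of size `T^{-D}` at `x`, `|Y_j|` is about `exp(- λ_j T)` -/
def Adm {n c : ℕ} (I : Ideal (MvPolynomial (Fin n) ℂ)) (lam : Fin c → ℝ)
    (R : MvPolynomial (Fin n) ℂ) (D K T : ℝ) (x : Fin n → ℂ) (Y : Fin c → ℂ) : Prop :=
  (∀ g ∈ I, eval x g = 0) ∧ ‖x‖ ≤ T ^ D ∧ T ^ (-D) ≤ ‖eval x R‖ ∧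
    ∀ j, Y j ≠ 0 ∧ |Real.log ‖Y j‖ + lam j * T| ≤ T / K

theorem Adm.mono {n c : ℕ} {I : Ideal (MvPolynomial (Fin n) ℂ)} {lam : Fin c → ℝ}
    {R : MvPolynomial (Fin n) ℂ} {D K K' T : ℝ} {x : Fin n → ℂ} {Y : Fin c → ℂ}
    (h : Adm I lam R D K' T x Y) (hK0 : 0 < K) (hK : K ≤ K') (hT : 0 ≤ T) :
    Adm I lam R D K T x Y := by
  obtain ⟨h1, h2, h3, h4⟩ := h
  exact ⟨h1, h2, h3, fun j => ⟨(h4 j).1, (h4 j).2.trans (by gcongr)⟩⟩

/-- the function field `E` of a variety `V ⊆ ℂ^n × (ℂ^*)^n` with generic point `(x, y)`, with an end `O`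
of the generic fibre of the projection to `ℂ^n`: the valuation of `O` is trivial on `ℂ(x)`, the monomials in the
`Y_j = y_{i_j}` have different valuations, ordered by means of the weights `λ_j`;
`y_l` has the order `b_l / N` with respect to `Y` -/
structure Gen (n c : ℕ) (E : Type) [Field E] [Algebra ℂ E] where
  x : Fin n → E
  y : Fin n → E
  hy : ∀ l, y l ≠ 0
  O : ValuationSubring E
  hO : ∀ g : MvPolynomial (Fin n) ℂ, aeval x g ≠ 0 → O.valuation (aeval x g) = 1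
  i : Fin c → Fin n
  lam : Fin c → ℝ
  hlam : LinearIndependent ℚ lam
  hmon : ∀ α : Fin c → ℤ, 0 < ∑ j, (α j : ℝ) * lam j →
    O.valuation (∏ j, y (i j) ^ α j) < 1
  N : ℕ
  hN : 0 < N
  b : Fin n → Fin c → ℤ
  hb : ∀ l, O.valuation (y l) ^ N = O.valuation (∏ j, y (i j) ^ b l j)
  halg : ∀ l, IsAlgebraic (IntermediateField.adjoin ℂ
    (Set.range (Sum.elim (fun j => y (i j)) x))) (y l)

/-- the ideal of the projection -/
noncomputable def Gen.I {n c : ℕ} {E : Type} [Field E] [Algebra ℂ E] (G : Gen n c E) :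
    Ideal (MvPolynomial (Fin n) ℂ) :=
  RingHom.ker (aeval G.x : MvPolynomial (Fin n) ℂ →ₐ[ℂ] E)

theorem Gen.mem_I {n c : ℕ} {E : Type} [Field E] [Algebra ℂ E] (G : Gen n c E)
    (g : MvPolynomial (Fin n) ℂ) : g ∈ G.I ↔ aeval G.x g = 0 := RingHom.mem_ker

theorem Gen.I_prime {n c : ℕ} {E : Type} [Field E] [Algebra ℂ E] (G : Gen n c E) :
    G.I.IsPrime := RingHom.ker_isPrime _

/-- the orders of the `y_l` with respect to the `Y_j` -/
def Gen.a {n c : ℕ} {E : Type} [Field E] [Algebra ℂ E] (G : Gen n c E) :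
    Fin n → Fin c → ℚ :=
  fun l j => (G.b l j : ℚ) / G.N

/-- arbitrarily far away there are integral points `2πi M` and holomorphic pieces
`u + ∑ w_j(u) a_j` of the variety of `I` over a large ball around `2πi M`, with `Re w_j(u)` about
`- λ_j T` -/
def HasRegion {n c : ℕ} (I : Ideal (MvPolynomial (Fin n) ℂ)) (a : Fin n → Fin c → ℚ)
    (lam : Fin c → ℝ) : Prop :=
  ∀ R : MvPolynomial (Fin n) ℂ, R ∉ I → ∃ D : ℝ, ∀ K : ℝ, 1 ≤ K → ∃ T : ℝ, K ≤ T ∧ 2 ≤ T ∧
    ∃ (M : Fin n → ℤ) (w : (Fin n → ℂ) → Fin c → ℂ),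
      DifferentiableOn ℂ w
        (ball (fun l => 2 * Real.pi * Complex.I * (M l : ℂ)) (K * Real.log T)) ∧
      ∀ u ∈ ball (fun l => 2 * Real.pi * Complex.I * (M l : ℂ) : Fin n → ℂ) (K * Real.log T),
        (∀ g ∈ I, eval (fun l => u l + ∑ j, w u j * ((a l j : ℚ) : ℂ)) g = 0) ∧
        (∀ j, |(w u j).re + lam j * T| ≤ T / K) ∧
        ‖(fun l => u l + ∑ j, w u j * ((a l j : ℚ) : ℂ) : Fin n → ℂ)‖ ≤ T ^ D ∧
        T ^ (-D) ≤ ‖eval (fun l => u l + ∑ j, w u j * ((a l j : ℚ) : ℂ)) R‖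

/-- the leading form -/
noncomputable def top {n : ℕ} (P : MvPolynomial (Fin n) ℂ) : MvPolynomial (Fin n) ℂ :=
  homogeneousComponent P.totalDegree P

/-- `z` is a reduced point of the cone at infinity of the variety of `I`, and the tangent space at this
point has codimension `c` and is transversal to the space spanned by the vectors `a_k = (a l k)_l` -/
def Good {n c : ℕ} (I : Ideal (MvPolynomial (Fin n) ℂ)) (a : Fin n → Fin c → ℚ)
    (z : Fin n → ℂ) : Prop :=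
  ∃ (P : Fin c → MvPolynomial (Fin n) ℂ) (Q : MvPolynomial (Fin n) ℂ), (∀ j, P j ∈ I) ∧
    (∀ g ∈ I, Q * g ∈ Ideal.span (Set.range P)) ∧ (∀ j, eval z (top (P j)) = 0) ∧
    Matrix.det (Matrix.of fun j k : Fin c =>
      ∑ l, ((a l k : ℚ) : ℂ) * eval z (pderiv l (top (P j)))) ≠ 0 ∧
    eval z (top Q) ≠ 0

end Pool.Agent.Q72.EL
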