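import Pool.Agent.Q208.EL.Tool
import Pool.Agent.Q206.EG.Slope

/-!
# Project EL (helper72): DOM2, SLOPE2
-/

set_option autoImplicit false

namespace Pool.Agent.Q72.EL

open MvPolynomial Filter Topology Metric Pool.Agent.Q208.EL

theorem dom : S_dom := by
  classical
  intro n c I lam H hI hlam hex
  obtain ⟨F, hF, hev⟩ := exists_F I (Polynomial.C H)
  obtain ⟨g, hg⟩ : ∃ g : ℕ × (Fin c →₀ ℕ) → MvPolynomial (Fin n) ℂ,
    g = fun e => cf ((Polynomial.C H).coeff e.1) e.2 := ⟨_, rfl⟩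
  have hge : ∀ e, g e = cf ((Polynomial.C H).coeff e.1) e.2 := fun e => by rw [hg]
  have hnd : ∏ e ∈ F, g e ∉ I := prod_notMem hI F g (fun e he => by
    rw [hge]; exact (hF e).1 he)
  have hF0 : ∀ e ∈ F, e.1 = 0 := by
    intro e he
    by_contra h0
    apply (hF e).1 he
    rw [Polynomial.coeff_C, if_neg h0]
    unfold cf
    simp
  have hFne : F.Nonempty := by
    obtain ⟨α, h⟩ := hex
    refine ⟨(0, α), (hF _).2 ?_⟩
    simpa using h
  obtain ⟨e0, he0, hmin⟩ := F.exists_min_image (fun e => ∑ j, (e.2 j : ℝ) * lam j) hFne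
  obtain ⟨w, hw⟩ : ∃ w : ℕ × (Fin c →₀ ℕ) → Fin c → ℚ, w = fun e j =>
    (e.2 j : ℚ) - (e0.2 j : ℚ) := ⟨_, rfl⟩
  have hwj : ∀ e j, ((w e j : ℚ) : ℝ) = (e.2 j : ℝ) - (e0.2 j : ℝ) := by
    intro e j
    rw [hw]
    push_cast
    ring
  have hwr : ∀ e, ∑ j, ((w e j : ℚ) : ℝ) * lam j =
      ∑ j, (e.2 j : ℝ) * lam j - ∑ j, (e0.2 j : ℝ) * lam j := by
    intro e
    rw [← Finset.sum_sub_distrib]
    refine Finset.sum_congr rfl fun j _ => ?_
    rw [hwj]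
    ring
  have hwpos : ∀ e ∈ F, e ≠ e0 → 0 < ∑ j, ((w e j : ℚ) : ℝ) * lam j := by
    intro e he hne
    have h0 : 0 ≤ ∑ j, ((w e j : ℚ) : ℝ) * lam j := by
      rw [hwr]
      linarith [hmin e he]
    refine lt_of_le_of_ne h0 fun h => hne ?_
    have h1 := indep hlam h.symm
    refine Prod.ext ((hF0 e he).trans (hF0 e0 he0).symm) ?_
    ext j
    have h2 := congrFun h1 j
    rw [hw] at h2
    simp only [Pi.zero_apply] at h2
    have h3 : (e.2 j : ℚ) = (e0.2 j : ℚ) := by linarith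
    exact_mod_cast h3
  obtain ⟨δ, K₀, hδ, hK₀, hgap⟩ := gap_fin F lam (fun e j => ((w e j : ℚ) : ℝ))
  refine ⟨∏ e ∈ F, g e, hnd, ?_⟩
  intro R' hR' D
  obtain ⟨D1, hD1, htwo⟩ := Pool.Agent.Q206.EG.two F g R'
    (fun e he => (Finset.dvd_prod_of_mem g he).trans hR') D
  obtain ⟨s, hs, hc⟩ := Pool.Agent.Q206.EG.const_le (F.card : ℝ)
  obtain ⟨K₁, hK₁, hexp⟩ := exp_small (s + 2 * D1 + 1) hδ
  refine ⟨max K₀ K₁, hK₀.trans (le_max_left _ _), ?_⟩
  intro T hT x Y hA hzero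
  have hTK1 : K₁ ≤ T := (le_max_right _ _).trans hT
  have hT2 : (2 : ℝ) ≤ T := hK₁.trans hTK1
  have hT0 : (0 : ℝ) < T := by linarith
  have hT1 : (1 : ℝ) < T := by linarith
  obtain ⟨hxP, hx, hR, hY⟩ := hA
  have hY0 : ∀ j, Y j ≠ 0 := fun j => (hY j).1
  obtain ⟨L, hL⟩ : ∃ L : Fin c → ℝ, L = fun j => Real.log ‖Y j‖ := ⟨_, rfl⟩
  have hLj : ∀ j, Real.log ‖Y j‖ = L j := fun j => by rw [hL]
  have hLb : ∀ j, |L j + lam j * T| ≤ T / max K₀ K₁ := fun j => by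
    rw [← hLj]
    exact (hY j).2
  have hgap' : ∀ e ∈ F, e ≠ e0 →
      Real.exp (∑ j, ((w e j : ℚ) : ℝ) * L j) ≤ T ^ (-(s + 2 * D1 + 1)) := by
    intro e he hne
    have h3 := hgap e he (hwpos e he hne) (max K₀ K₁) T (le_max_left _ _) hT0.le L hLb
    exact (Real.exp_le_exp.2 h3).trans (hexp T hTK1)
  obtain ⟨E0, hE0⟩ : ∃ E0 : ℝ, E0 = Real.exp (∑ j, (e0.2 j : ℝ) * L j) := ⟨_, rfl⟩
  have hE0p : 0 < E0 := by
    rw [hE0]
    exact Real.exp_pos _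
  have hmon : ∀ e : ℕ × (Fin c →₀ ℕ), ‖∏ j, Y j ^ e.2 j‖ =
      Real.exp (∑ j, ((w e j : ℚ) : ℝ) * L j) * E0 := by
    intro e
    rw [norm_mon hY0, hE0, ← Real.exp_add, ← Finset.sum_add_distrib]
    congr 1
    refine Finset.sum_congr rfl fun j _ => ?_
    rw [hwj, hLj]
    ring
  have hmon0 : ‖∏ j, Y j ^ e0.2 j‖ = E0 := by
    rw [norm_mon hY0, hE0]
    simp only [hLj]
  have h0 := exists_FC I (Polynomial.C H) F hev x Y 0 hxP
  rw [Polynomial.map_C, Polynomial.eval_C] at h0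
  have hz : ∑ e ∈ F, eval x (g e) * (∏ j, Y j ^ e.2 j) = 0 := by
    calc ∑ e ∈ F, eval x (g e) * (∏ j, Y j ^ e.2 j)
        = ∑ e ∈ F, eval x (cf ((Polynomial.C H).coeff e.1) e.2) * (∏ j, Y j ^ e.2 j) *
            (0 : ℂ) ^ e.1 := by
          refine Finset.sum_congr rfl fun e he => ?_
          rw [hge, hF0 e he, pow_zero, mul_one]
      _ = 0 := by
          rw [← h0]
          exact hzero
  rw [← Finset.add_sum_erase _ _ he0] at hz
  have h1 : eval x (g e0) * (∏ j, Y j ^ e0.2 j) =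
      -∑ e ∈ F.erase e0, eval x (g e) * (∏ j, Y j ^ e.2 j) :=
    eq_neg_of_add_eq_zero_left hz
  have h2 : ‖eval x (g e0)‖ * E0 ≤
      F.card * (T ^ D1 * (T ^ (-(s + 2 * D1 + 1)) * E0)) := by
    rw [← hmon0, ← norm_mul, h1, norm_neg, hmon0]
    refine (norm_sum_le _ _).trans ?_
    have : ∀ e ∈ F.erase e0,
        ‖eval x (g e) * (∏ j, Y j ^ e.2 j)‖ ≤ T ^ D1 * (T ^ (-(s + 2 * D1 + 1)) * E0) := by
      intro e he
      obtain ⟨hne, hmem⟩ := Finset.mem_erase.1 he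
      rw [norm_mul, hmon]
      have a1 := (htwo T hT2 x hx hR e hmem).2
      have a2 := hgap' e hmem hne
      exact mul_le_mul a1 (mul_le_mul_of_nonneg_right a2 hE0p.le) (by positivity) (by positivity)
    refine (Finset.sum_le_card_nsmul _ _ _ this).trans ?_
    rw [nsmul_eq_mul]
    refine mul_le_mul_of_nonneg_right ?_ (by positivity)
    exact_mod_cast Finset.card_le_card (Finset.erase_subset _ _)
  have h3 : ‖eval x (g e0)‖ ≤ F.card * (T ^ D1 * T ^ (-(s + 2 * D1 + 1))) := by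
    apply le_of_mul_le_mul_right _ hE0p
    calc ‖eval x (g e0)‖ * E0 ≤ F.card * (T ^ D1 * (T ^ (-(s + 2 * D1 + 1)) * E0)) := h2
      _ = F.card * (T ^ D1 * T ^ (-(s + 2 * D1 + 1))) * E0 := by ring
  have h4 := (htwo T hT2 x hx hR e0 he0).1
  have h5 : T ^ (-D1) ≤ T ^ s * (T ^ D1 * T ^ (-(s + 2 * D1 + 1))) := by
    refine h4.trans (h3.trans ?_)
    have := hc T hT2
    gcongr
  rw [← Real.rpow_add hT0, ← Real.rpow_add hT0, Real.rpow_le_rpow_left_iff hT1] at h5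
  linarith

theorem slope_core {c : ℕ} (F : Finset (ℕ × (Fin c →₀ ℕ))) (hFne : F.Nonempty)
    (C : ℕ × (Fin c →₀ ℕ) → ℂ) (Y : Fin c → ℂ) (Z : ℂ)
    (hY : ∀ j, Y j ≠ 0) (hZ : Z ≠ 0)
    (hsum : ∑ e ∈ F, C e * (∏ j, Y j ^ e.2 j) * Z ^ e.1 = 0) (B s : ℝ)
    (hc : ∀ e ∈ F, C e ≠ 0 ∧ |Real.log ‖C e‖| ≤ B) (hs : Real.log F.card ≤ s)
    (hgap : ∀ e ∈ F, ∀ e' ∈ F, e.2 ≠ e'.2 →
      2 * B + s < |∑ j, ((e.2 j : ℝ) - e'.2 j) * Real.log ‖Y j‖|) :
    ∃ e ∈ F, ∃ e' ∈ F, |Real.log ‖Z‖ -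
      ∑ j, -(((e.2 j : ℝ) - e'.2 j) / ((e.1 : ℝ) - e'.1)) * Real.log ‖Y j‖| ≤ 2 * B + s := by
  classical
  have hZn : ‖Z‖ ≠ 0 := norm_ne_zero_iff.2 hZ
  have hB : 0 ≤ B := by
    obtain ⟨e, he⟩ := hFne
    exact (abs_nonneg _).trans (hc e he).2
  have hcardpos : (0 : ℝ) < F.card := by exact_mod_cast hFne.card_pos
  have hs0 : 0 ≤ s := by
    refine le_trans ?_ hs
    apply Real.log_nonneg
    exact_mod_cast hFne.card_pos
  have hM0 : ∀ e : ℕ × (Fin c →₀ ℕ), (∏ j, Y j ^ e.2 j) ≠ 0 := fun e =>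
    Finset.prod_ne_zero_iff.2 fun j _ => pow_ne_zero _ (hY j)
  have hne0 : ∀ e ∈ F, C e * (∏ j, Y j ^ e.2 j) * Z ^ e.1 ≠ 0 := fun e he =>
    mul_ne_zero (mul_ne_zero (hc e he).1 (hM0 e)) (pow_ne_zero _ hZ)
  obtain ⟨e, he, e', he', hne, hle1, hle2⟩ :=
    Pool.Agent.Q206.EG.two_terms F hFne (fun e => C e * (∏ j, Y j ^ e.2 j) * Z ^ e.1) hsum hne0
  have hlog : ∀ e ∈ F, Real.log ‖C e * (∏ j, Y j ^ e.2 j) * Z ^ e.1‖ =
      Real.log ‖C e‖ + ∑ j, (e.2 j : ℝ) * Real.log ‖Y j‖ + e.1 * Real.log ‖Z‖ := by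
    intro e he
    have h0 : ‖C e‖ ≠ 0 := norm_ne_zero_iff.2 (hc e he).1
    rw [norm_mul, norm_mul, norm_pow, norm_mon hY, Real.log_mul (mul_ne_zero h0
      (Real.exp_pos _).ne') (pow_ne_zero _ hZn), Real.log_mul h0 (Real.exp_pos _).ne',
      Real.log_exp, Real.log_pow]
  have hpos' : 0 < ‖C e' * (∏ j, Y j ^ e'.2 j) * Z ^ e'.1‖ := norm_pos_iff.2 (hne0 e' he')
  have hpos : 0 < ‖C e * (∏ j, Y j ^ e.2 j) * Z ^ e.1‖ := norm_pos_iff.2 (hne0 e he)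
  have l1 := Real.log_le_log hpos' hle1
  have l2 := Real.log_le_log hpos hle2
  rw [Real.log_mul hcardpos.ne' hpos'.ne'] at l2
  rw [hlog e he, hlog e' he'] at l1 l2
  have c1 := abs_le.1 (hc e he).2
  have c2 := abs_le.1 (hc e' he').2
  have hsub : ∑ j, ((e.2 j : ℝ) - e'.2 j) * Real.log ‖Y j‖ =
      ∑ j, (e.2 j : ℝ) * Real.log ‖Y j‖ - ∑ j, (e'.2 j : ℝ) * Real.log ‖Y j‖ := by
    rw [← Finset.sum_sub_distrib]
    exact Finset.sum_congr rfl fun j _ => by ring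
  have key : |((e.1 : ℝ) - e'.1) * Real.log ‖Z‖ +
      ∑ j, ((e.2 j : ℝ) - e'.2 j) * Real.log ‖Y j‖| ≤ 2 * B + s := by
    rw [hsub, abs_le]
    constructor
    · nlinarith
    · nlinarith
  have hb : (e.1 : ℝ) - e'.1 ≠ 0 := by
    intro hb
    rw [hb, zero_mul, zero_add] at key
    have hj : e.2 ≠ e'.2 := by
      intro hj
      apply hne
      have : e.1 = e'.1 := by
        have := sub_eq_zero.1 hb
        exact_mod_cast this
      exact Prod.ext this hj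
    have := hgap e he e' he' hj
    linarith
  have hb1 : 1 ≤ |(e.1 : ℝ) - e'.1| := by
    have : (1 : ℤ) ≤ |(e.1 : ℤ) - e'.1| := by
      apply Int.one_le_abs
      intro h
      apply hb
      exact_mod_cast h
    exact_mod_cast this
  refine ⟨e, he, e', he', ?_⟩
  have h1 : Real.log ‖Z‖ -
      ∑ j, -(((e.2 j : ℝ) - e'.2 j) / ((e.1 : ℝ) - e'.1)) * Real.log ‖Y j‖ =
      (((e.1 : ℝ) - e'.1) * Real.log ‖Z‖ + ∑ j, ((e.2 j : ℝ) - e'.2 j) * Real.log ‖Y j‖) /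
        ((e.1 : ℝ) - e'.1) := by
    rw [add_div, mul_div_cancel_left₀ _ hb, Finset.sum_div, sub_eq_add_neg,
      ← Finset.sum_neg_distrib]
    congr 1
    refine Finset.sum_congr rfl fun j _ => ?_
    ring
  rw [h1, abs_div, div_le_iff₀ (by linarith)]
  exact key.trans (le_mul_of_one_le_right (by linarith) hb1)

theorem slope : S_slope := by
  classical
  intro n c I lam A hI hlam hex
  obtain ⟨F, hF, hev⟩ := exists_F I A
  have hFne : F.Nonempty := by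
    obtain ⟨b, α, h⟩ := hex
    exact ⟨(b, α), (hF _).2 h⟩
  obtain ⟨g, hg⟩ : ∃ g : ℕ × (Fin c →₀ ℕ) → MvPolynomial (Fin n) ℂ,
    g = fun e => cf (A.coeff e.1) e.2 := ⟨_, rfl⟩
  have hge : ∀ e, g e = cf (A.coeff e.1) e.2 := fun e => by rw [hg]
  have hnd : ∏ e ∈ F, g e ∉ I := prod_notMem hI F g (fun e he => by
    rw [hge]; exact (hF e).1 he)
  obtain ⟨v, hv⟩ : ∃ v : (ℕ × (Fin c →₀ ℕ)) × (ℕ × (Fin c →₀ ℕ)) → Fin c → ℝ, v = fun p j =>
    (p.1.2 j : ℝ) - (p.2.2 j : ℝ) := ⟨_, rfl⟩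
  obtain ⟨δ, K₀, hδ, hK₀, hgap⟩ := gap_fin (F ×ˢ F) lam v
  refine ⟨∏ e ∈ F, g e,
    (F ×ˢ F).image (fun p j => -(((p.1.2 j : ℚ) - p.2.2 j) / ((p.1.1 : ℚ) - p.2.1))), hnd, ?_⟩
  intro R' hR' D
  obtain ⟨D1, hD1, htwo⟩ := Pool.Agent.Q206.EG.two F g R'
    (fun e he => (Finset.dvd_prod_of_mem g he).trans hR') D
  obtain ⟨s, hs, hc⟩ := Pool.Agent.Q206.EG.const_le (F.card : ℝ)
  obtain ⟨K₁, hK₁, hlogs⟩ := log_small (2 * D1 + s) hδ
  refine ⟨2 * D1 + s, max K₀ K₁, hK₀.trans (le_max_left _ _), ?_⟩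
  intro T hT x Y hA Z hZ hroot
  have hTK1 : K₁ ≤ T := (le_max_right _ _).trans hT
  have hT2 : (2 : ℝ) ≤ T := hK₁.trans hTK1
  have hT0 : (0 : ℝ) < T := by linarith
  have hT1 : (1 : ℝ) < T := by linarith
  obtain ⟨hxP, hx, hR, hY⟩ := hA
  have hY0 : ∀ j, Y j ≠ 0 := fun j => (hY j).1
  have hroot' := exists_FC I A F hev x Y Z hxP
  rw [hroot] at hroot'
  have hroot2 : ∑ e ∈ F, eval x (g e) * (∏ j, Y j ^ e.2 j) * Z ^ e.1 = 0 := by
    simp only [hge]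
    exact hroot'.symm
  have hcardpos : (0 : ℝ) < F.card := by exact_mod_cast hFne.card_pos
  have l3 : Real.log F.card ≤ s * Real.log T := by
    have := Real.log_le_log hcardpos (hc T hT2)
    rwa [Real.log_rpow hT0] at this
  have hone : ∀ e ∈ F, ∀ e' ∈ F, 0 < ∑ j, ((e.2 j : ℝ) - e'.2 j) * lam j →
      2 * (D1 * Real.log T) + s * Real.log T <
        |∑ j, ((e.2 j : ℝ) - e'.2 j) * Real.log ‖Y j‖| := by
    intro e he e' he' hp
    have h3 := hgap (e, e') (Finset.mem_product.2 ⟨he, he'⟩) (by rw [hv]; exact hp)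
      (max K₀ K₁) T (le_max_left _ _) hT0.le (fun j => Real.log ‖Y j‖) (fun j => (hY j).2)
    rw [hv] at h3
    simp only at h3
    have h4 := hlogs T hTK1
    rw [lt_abs]
    right
    linarith
  obtain ⟨e, he, e', he', hfin⟩ := slope_core F hFne (fun e => eval x (g e)) Y Z
    hY0 hZ hroot2 (D1 * Real.log T) (s * Real.log T) (fun e he => by
      have := htwo T hT2 x hx hR e he
      exact ⟨norm_pos_iff.1 ((Real.rpow_pos_of_pos hT0 _).trans_le this.1),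
        Pool.Agent.Q206.EG.abs_log_le hT0 this.1 this.2⟩) l3 (by
      intro e he e' he' hne
      rcases lt_trichotomy 0 (∑ j, ((e.2 j : ℝ) - e'.2 j) * lam j) with h | h | h
      · exact hone e he e' he' h
      · exfalso
        apply hne
        have h1 : (fun j => (e.2 j : ℚ) - e'.2 j) = 0 := by
          refine indep hlam ?_
          rw [h]
          refine Finset.sum_congr rfl fun j _ => ?_
          push_cast
          ring
        ext j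
        have h2 := congrFun h1 j
        simp only [Pi.zero_apply] at h2
        have h3 : (e.2 j : ℚ) = (e'.2 j : ℚ) := by linarith
        exact_mod_cast h3
      · have h1 : ∑ j, ((e'.2 j : ℝ) - e.2 j) * lam j = -∑ j, ((e.2 j : ℝ) - e'.2 j) * lam j := by
          rw [← Finset.sum_neg_distrib]
          exact Finset.sum_congr rfl fun j _ => by ring
        have h2 : ∑ j, ((e'.2 j : ℝ) - e.2 j) * Real.log ‖Y j‖ =
            -∑ j, ((e.2 j : ℝ) - e'.2 j) * Real.log ‖Y j‖ := by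
          rw [← Finset.sum_neg_distrib]
          exact Finset.sum_congr rfl fun j _ => by ring
        have h3 := hone e' he' e he (by rw [h1]; linarith)
        rwa [h2, abs_neg] at h3)
  refine ⟨fun j => -(((e.2 j : ℚ) - e'.2 j) / ((e.1 : ℚ) - e'.1)), ?_, ?_⟩
  · rw [Finset.mem_image]
    exact ⟨(e, e'), Finset.mem_product.2 ⟨he, he'⟩, rfl⟩
  · have h5 : ∑ j, (((-(((e.2 j : ℚ) - e'.2 j) / ((e.1 : ℚ) - e'.1)) : ℚ)) : ℝ) *
        Real.log ‖Y j‖ =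
        ∑ j, -(((e.2 j : ℝ) - e'.2 j) / ((e.1 : ℝ) - e'.1)) * Real.log ‖Y j‖ := by
      refine Finset.sum_congr rfl fun j _ => ?_
      push_cast
      ring
    rw [h5]
    refine hfin.trans (le_of_eq ?_)
    ring

end Pool.Agent.Q72.EL
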