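import Pool.Agent.Q72.EL.Stm2

/-!
Project EL (helper72): more statements, with complete proofs in the docstrings: varieties of dimension
larger than `n`, and nonlinear projections with linear factors of the leading forms.
-/

set_option autoImplicit false

namespace Pool.Agent.Q72.EL

open MvPolynomial Filter Topology Metric

/-- JOB CUT. Specialisation of some of the `y`-coordinates to constants.
Proof. Induction on `c' - c`, one step is: `c' ≥ 1`, `K1` = the field generated by `ℂ(x)` and the `y_{i_j}`, `j < c' - 1` (all but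
the last), `Z` = the last one, transcendental over `K1`, `E` may be replaced by the field generated by `x, y`, so all its elements
are algebraic over `K1(Z)`. For `f ∈ {y_l, y_l⁻¹, H(x, y)⁻¹}` there is a polynomial relation with coefficients in `K1[Z]` and
leading coefficient `a_f(Z) ≠ 0`. Choose `ζ ∈ ℂ` with `a_f(ζ) ≠ 0` for all these `f` (finitely many values are excluded). Let `O`
be a valuation ring of `E` which dominates the local ring `K1[Z]_(Z - ζ)` (`LocalSubring.exists_le_valuationSubring`), `E'` its residue field.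
It contains `K1`, `Z ↦ ζ`, and `f ∈ O` for all `f` above, as `f` is integral over `K1[Z]_(Z - ζ)` (valuation rings are integrally
closed). Let `x', y'` be the residues: the `y'_l` are not zero (`y_l⁻¹ ∈ O`), every polynomial relation of `(x, y)` over `ℂ` holds
for `(x', y')`, `H(x', y') ≠ 0`, `K1` embeds, so the `x'` have the same relations as the `x` and the `y'_{i_j}`, `j < c' - 1`, are
algebraically independent over `ℂ(x')`. All `y'_l` are algebraic over `K1`: reduce a relation of `y_l` over `K1[Z]` in which not all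
coefficients are divisible by `Z - ζ`. -/
def S_cut : Prop := ∀ (n c c' : ℕ) (E : Type) [Field E] [Algebra ℂ E] (x y : Fin n → E)
  (i : Fin c' → Fin n), c ≤ c' → (∀ l, y l ≠ 0) →
  AlgebraicIndependent (IntermediateField.adjoin ℂ (Set.range x)) (fun j => y (i j)) →
  (∀ l, IsAlgebraic (IntermediateField.adjoin ℂ (Set.range (Sum.elim (fun j => y (i j)) x)))
    (y l)) → ∀ H : MvPolynomial (Fin n ⊕ Fin n) ℂ, aeval (Sum.elim x y) H ≠ 0 →
  ∃ (E' : Type) (_ : Field E') (_ : Algebra ℂ E') (x' y' : Fin n → E') (i' : Fin c → Fin n),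
    (∀ l, y' l ≠ 0) ∧
    AlgebraicIndependent (IntermediateField.adjoin ℂ (Set.range x')) (fun j => y' (i' j)) ∧
    (∀ l, IsAlgebraic (IntermediateField.adjoin ℂ
      (Set.range (Sum.elim (fun j => y' (i' j)) x'))) (y' l)) ∧
    (∀ g : MvPolynomial (Fin n) ℂ, aeval x' g = 0 ↔ aeval x g = 0) ∧
    (∀ f : MvPolynomial (Fin n ⊕ Fin n) ℂ, aeval (Sum.elim x y) f = 0 →
      aeval (Sum.elim x' y') f = 0) ∧
    aeval (Sum.elim x' y') H ≠ 0

/-- JOB FLD3. `S_fld` for varieties of any dimension `D ≥ n` (`Pool.Agent.Q2.EL.FLD2` with `n` replaced by `D` in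
HasDimV; the number of the `y_{i_j}` is `D - (n - c)`). -/
def S_fld3 : Prop := ∀ (n c D : ℕ) (I : Ideal (MvPolynomial (Fin n ⊕ Fin n) ℂ))
  (V : Set (Fin n ⊕ Fin n → ℂ)), EG.IsVar I V → EG.HasDimV V D → n ≤ D → c ≤ n →
  ProjDim V (n - c) →
  ∃ (c' : ℕ) (E : Type) (_ : Field E) (_ : Algebra ℂ E) (x y : Fin n → E) (i : Fin c' → Fin n),
    c ≤ c' ∧
    (∀ f, aeval (Sum.elim x y) f = 0 ↔ ∀ p ∈ V, eval p f = 0) ∧
    (∀ p, p ∈ V ↔ p ∈ EG.Pt (Sum.elim x y) ∧ ∀ j, p (Sum.inr j) ≠ 0) ∧ (∀ l, y l ≠ 0) ∧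
    AlgebraicIndependent (IntermediateField.adjoin ℂ (Set.range x)) (fun j => y (i j)) ∧
    (∀ l, IsAlgebraic (IntermediateField.adjoin ℂ
      (Set.range (Sum.elim (fun j => y (i j)) x))) (y l)) ∧
    Algebra.trdeg ℂ (MvPolynomial (Fin n) ℂ ⧸
      (RingHom.ker (aeval x : MvPolynomial (Fin n) ℂ →ₐ[ℂ] E))) + (c : Cardinal) ≤
        (n : Cardinal)

/-- JOB MAIN3. Exponential points are dense in all translates, `dim V ≥ n`.
Proof: as S_main, with S_fld3, S_cut (for the polynomial `H'`) and then S_ff; a point of `Pt (x', y')` is a point of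
`Pt (x, y)` by the fifth property of S_cut. -/
def S_main3 : Prop := ∀ (n c D : ℕ) (I : Ideal (MvPolynomial (Fin n ⊕ Fin n) ℂ))
  (V : Set (Fin n ⊕ Fin n → ℂ)), EG.IsVar I V → EG.HasDimV V D → n ≤ D → c ≤ n →
  ProjDim V (n - c) →
  HypH c (projIdeal V) → ∀ d : Fin n ⊕ Fin n → ℂ, (∀ i, d (Sum.inr i) ≠ 0) →
  EG.DenseExp (Pool.Agent.Y563.SE.Trs d V)

/-- JOB LINQ. Condition (H) for varieties which are complete intersections outside of `Q = 0`, given by polynomials `P_j` whose
leading forms are multiples `q_j G_j` of linear forms `q_j`. Let `W` be the subspace `q_1 = … = q_c = 0`.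
Proof. `P, Q` as given. (1) Linear algebra: for every `k` there is a real `κ_k` with `q_j · κ_k = i q_j · a_k` for all `j`
(the real linear map `ℝ^n → ℂ^c`, `κ ↦ (q_j · κ)_j`, is surjective), put `z_k = a_k + i κ_k ∈ W`. Let `κ'_1, …` be a basis of
its kernel (dimension `n - 2c`). The `n - c` vectors `z_k`, `i κ'_m` of `W` are linearly independent over `ℂ`: the real vector
space `U` spanned by them is the set of the `z ∈ W` with real part in the real span `A` of the `a_k`, its real dimension is `n - c`, and if `z ∈ U ∩ iU`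
then the real and imaginary parts of `z` are in `A`, so `z = ∑ s_k a_k` with `s_k ∈ ℂ`, `q_j · z = 0`, so `z = 0` as
`det (q_j · a_k) ≠ 0`. So they are a basis of `W`, which has dimension `n - c`. (2) The polynomial
`N = (∏ G_j) (top Q)` does not vanish identically on `W` (`W` is irreducible: pull back to a polynomial ring by the parametrization
`Φ(s, t) = ∑ s_k z_k + ∑ t_m i κ'_m`, a product of nonzero polynomials is not zero). So `N(Φ(s, t))` is a nonzero polynomial, and there are real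
`s` as close to `lam` as we want and real `t` with `N(Φ(s, t)) ≠ 0` (`MvPolynomial.funext_set`). (3) Put `μ = s`,
`κ = ∑ s_k κ_k + ∑ t_m κ'_m`, `z = Φ(s, t) = ∑ μ_k a_k + i κ`. `top P_j (z) = (q_j · z) G_j(z) = 0` and
`∑_l a_lk ∂_l (top P_j)(z) = (q_j · a_k) G_j(z)`, the determinant is `(∏ G_j(z)) det (q_j · a_k) ≠ 0`. -/
def S_linq : Prop := ∀ (n c : ℕ) (q : Fin c → Fin n → ℂ) (I : Ideal (MvPolynomial (Fin n) ℂ))
  (P Gf : Fin c → MvPolynomial (Fin n) ℂ) (Q : MvPolynomial (Fin n) ℂ),
  LinearIndependent ℝ (Sum.elim (fun (j : Fin c) (l : Fin n) => (q j l).re)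
    (fun (j : Fin c) (l : Fin n) => (q j l).im)) →
  (∀ a : Fin n → Fin c → ℚ, LinearIndependent ℚ (fun (k : Fin c) (l : Fin n) => a l k) →
    Matrix.det (Matrix.of fun j k : Fin c => ∑ l, q j l * ((a l k : ℚ) : ℂ)) ≠ 0) →
  (∀ j, P j ∈ I) → (∀ g ∈ I, Q * g ∈ Ideal.span (Set.range P)) →
  (∀ j, top (P j) = (∑ l, C (q j l) * X l) * Gf j) →
  (∀ j, ∃ z : Fin n → ℂ, (∀ j', ∑ l, q j' l * z l = 0) ∧ eval z (Gf j) ≠ 0) →
  (∃ z : Fin n → ℂ, (∀ j', ∑ l, q j' l * z l = 0) ∧ eval z (top Q) ≠ 0) →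
  HypH c I

end Pool.Agent.Q72.EL
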