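import Pool.Agent.Q285.EL.Linh
import Pool.Agent.Q72.EL.Stm3

/-!
Project EL (helper72), job LINQ: condition (H) for complete intersections outside of `Q = 0` whose leading forms
have linear factors.
-/

set_option autoImplicit false

namespace Pool.Agent.Q72.EL.LM

open MvPolynomial Filter Topology Metric
open Pool.Agent.Q72 Pool.Agent.Q72.EL

/-- the real linear map `κ ↦ (q_j · κ)_j` -/
noncomputable def Lam {n c : ℕ} (q : Fin c → Fin n → ℂ) : (Fin n → ℝ) →ₗ[ℝ] (Fin c → ℂ) where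
  toFun κ := fun j => ∑ l, q j l * ((κ l : ℝ) : ℂ)
  map_add' κ κ' := by
    funext j
    simp only [Pi.add_apply, Complex.ofReal_add]
    rw [← Finset.sum_add_distrib]
    exact Finset.sum_congr rfl fun l _ => by ring
  map_smul' r κ := by
    funext j
    simp only [Pi.smul_apply, smul_eq_mul, Complex.ofReal_mul, RingHom.id_apply, Complex.real_smul]
    rw [Finset.mul_sum]
    exact Finset.sum_congr rfl fun l _ => by ring

theorem Lam_apply {n c : ℕ} (q : Fin c → Fin n → ℂ) (κ : Fin n → ℝ) (j : Fin c) :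
    Lam q κ j = ∑ l, q j l * ((κ l : ℝ) : ℂ) := rfl

theorem Lam_surj {n c : ℕ} (q : Fin c → Fin n → ℂ)
    (hq : LinearIndependent ℝ (Sum.elim (fun (j : Fin c) (l : Fin n) => (q j l).re)
      (fun (j : Fin c) (l : Fin n) => (q j l).im))) :
    Function.Surjective (Lam q) := by
  intro s
  obtain ⟨κ, hκ⟩ := Q285.EL.exists_sol _ hq (Sum.elim (fun j => (s j).re) (fun j => (s j).im))
  refine ⟨κ, ?_⟩
  funext j
  rw [Lam_apply]
  apply Complex.ext
  · rw [Complex.re_sum]
    have h1 := hκ (Sum.inl j)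
    simp only [Sum.elim_inl] at h1
    rw [← h1]
    refine Finset.sum_congr rfl fun l _ => ?_
    simp
  · rw [Complex.im_sum]
    have h1 := hκ (Sum.inr j)
    simp only [Sum.elim_inr] at h1
    rw [← h1]
    refine Finset.sum_congr rfl fun l _ => ?_
    simp

/-- the parametrization of the space `q_1 = … = q_c = 0` -/
noncomputable def Phi {n c : ℕ} (z : Fin c → Fin n → ℂ) (Pm : Fin n → Fin n → ℝ)
    (v : Fin c ⊕ Fin n → ℂ) : Fin n → ℂ :=
  fun l => ∑ k, v (Sum.inl k) * z k l + Complex.I * ∑ m, v (Sum.inr m) * ((Pm l m : ℝ) : ℂ)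

/-- the polynomials of the parametrization -/
noncomputable def PhiP {n c : ℕ} (z : Fin c → Fin n → ℂ) (Pm : Fin n → Fin n → ℝ) (l : Fin n) :
    MvPolynomial (Fin c ⊕ Fin n) ℂ :=
  ∑ k, X (Sum.inl k) * C (z k l) + C Complex.I * ∑ m, X (Sum.inr m) * C ((Pm l m : ℝ) : ℂ)

theorem eval_PhiP {n c : ℕ} (z : Fin c → Fin n → ℂ) (Pm : Fin n → Fin n → ℝ)
    (v : Fin c ⊕ Fin n → ℂ) (g : MvPolynomial (Fin n) ℂ) :
    eval v (bind₁ (PhiP z Pm) g) = eval (Phi z Pm v) g := by
  rw [← MvPolynomial.coe_aeval_eq_eval, RingHom.coe_coe, MvPolynomial.aeval_bind₁]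
  rw [← MvPolynomial.coe_aeval_eq_eval, RingHom.coe_coe]
  congr 1
  congr 1
  funext l
  simp [PhiP, Phi]

/-- good points for one given family of rational vectors `a_k` -/
theorem linq1 {n c : ℕ} (q : Fin c → Fin n → ℂ) (I : Ideal (MvPolynomial (Fin n) ℂ))
    (P Gf : Fin c → MvPolynomial (Fin n) ℂ) (Q : MvPolynomial (Fin n) ℂ)
    (hq : LinearIndependent ℝ (Sum.elim (fun (j : Fin c) (l : Fin n) => (q j l).re)
      (fun (j : Fin c) (l : Fin n) => (q j l).im)))
    (hP : ∀ j, P j ∈ I) (hQ : ∀ g ∈ I, Q * g ∈ Ideal.span (Set.range P))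
    (htop : ∀ j, top (P j) = (∑ l, C (q j l) * X l) * Gf j)
    (hG : ∀ j, ∃ z : Fin n → ℂ, (∀ j', ∑ l, q j' l * z l = 0) ∧ eval z (Gf j) ≠ 0)
    (hQ0 : ∃ z : Fin n → ℂ, (∀ j', ∑ l, q j' l * z l = 0) ∧ eval z (top Q) ≠ 0)
    (a : Fin n → Fin c → ℚ)
    (hdet : Matrix.det (Matrix.of fun j k : Fin c => ∑ l, q j l * ((a l k : ℚ) : ℂ)) ≠ 0)
    (lam : Fin c → ℝ) (ε : ℝ) (hε : 0 < ε) :
    ∃ μ : Fin c → ℝ, (∀ j, |μ j - lam j| < ε) ∧ ∃ κ : Fin n → ℝ, Good I a fun l =>
      ∑ j, (μ j : ℂ) * ((a l j : ℚ) : ℂ) + Complex.I * (κ l : ℂ) := by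
  classical
  obtain ⟨ψ, hψ⟩ := (Lam q).exists_rightInverse_of_surjective (LinearMap.range_eq_top.2 (Lam_surj q hq))
  have hψ' : ∀ s, Lam q (ψ s) = s := fun s => by
    have := LinearMap.congr_fun hψ s
    simpa using this
  -- the numbers `q_j · a_k`
  set A : Fin c → Fin c → ℂ := fun j k => ∑ l, q j l * ((a l k : ℚ) : ℂ) with hA
  have hAdet : Matrix.det (Matrix.of A) ≠ 0 := hdet
  set κ : Fin c → Fin n → ℝ := fun k => ψ (fun j => Complex.I * A j k) with hκ
  have hκ' : ∀ k j, ∑ l, q j l * ((κ k l : ℝ) : ℂ) = Complex.I * A j k := by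
    intro k j
    rw [← Lam_apply, hκ]
    simp only
    rw [hψ']
  set z : Fin c → Fin n → ℂ := fun k l => ((a l k : ℚ) : ℂ) + Complex.I * ((κ k l : ℝ) : ℂ) with hz
  have hqz : ∀ j k, ∑ l, q j l * z k l = 0 := by
    intro j k
    have h1 : ∑ l, q j l * z k l = A j k + Complex.I * ∑ l, q j l * ((κ k l : ℝ) : ℂ) := by
      rw [hA]
      simp only [hz]
      rw [Finset.mul_sum, ← Finset.sum_add_distrib]
      exact Finset.sum_congr rfl fun l _ => by ring
    rw [h1, hκ', ← mul_assoc, Complex.I_mul_I]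
    ring
  -- the projection to the kernel
  set pr : (Fin n → ℝ) →ₗ[ℝ] (Fin n → ℝ) := LinearMap.id - ψ ∘ₗ (Lam q) with hpr
  have hpr0 : ∀ u, Lam q (pr u) = 0 := by
    intro u
    rw [hpr]
    simp only [LinearMap.sub_apply, LinearMap.id_apply, LinearMap.comp_apply, map_sub]
    rw [hψ', sub_self]
  have hpr1 : ∀ u, Lam q u = 0 → pr u = u := by
    intro u hu
    rw [hpr]
    simp only [LinearMap.sub_apply, LinearMap.id_apply, LinearMap.comp_apply]
    rw [hu, map_zero, sub_zero]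
  set Pm : Fin n → Fin n → ℝ := fun l m => pr (Pi.single m 1) l with hPm
  have hPm' : ∀ (u : Fin n → ℝ) (l : Fin n), ∑ m, u m * Pm l m = pr u l := by
    intro u l
    have h1 : u = ∑ m, u m • (Pi.single m (1 : ℝ) : Fin n → ℝ) := by
      funext l'
      rw [Finset.sum_apply, Finset.sum_eq_single l']
      · simp
      · intro m _ hm
        simp [Ne.symm hm]
      · intro h
        exact absurd (Finset.mem_univ _) h
    conv_rhs => rw [h1, map_sum, Finset.sum_apply]
    refine Finset.sum_congr rfl fun m _ => ?_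
    rw [map_smul]
    rfl
  -- points of the space are in the image of the parametrization
  have hreal : ∀ (s : Fin c → ℝ) (b : Fin n → ℝ),
      (∀ j, ∑ l, q j l * (∑ k, (s k : ℂ) * ((a l k : ℚ) : ℂ) + Complex.I * ((b l : ℝ) : ℂ)) = 0) →
      ∃ v : Fin c ⊕ Fin n → ℂ, Phi z Pm v =
        fun l => ∑ k, (s k : ℂ) * ((a l k : ℚ) : ℂ) + Complex.I * ((b l : ℝ) : ℂ) := by
    intro s b hb
    set u : Fin n → ℝ := fun l => b l - ∑ k, s k * κ k l with hu
    have hu0 : Lam q u = 0 := by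
      funext j
      rw [Lam_apply, hu]
      have h1 := hb j
      have h2 : ∑ l, q j l * (∑ k, (s k : ℂ) * ((a l k : ℚ) : ℂ) + Complex.I * ((b l : ℝ) : ℂ)) =
          ∑ k, (s k : ℂ) * A j k + Complex.I * ∑ l, q j l * ((b l : ℝ) : ℂ) := by
        simp only [hA, mul_add, Finset.sum_add_distrib, Finset.mul_sum]
        rw [Finset.sum_comm]
        congr 1
        · exact Finset.sum_congr rfl fun k _ => Finset.sum_congr rfl fun l _ => by ring
        · exact Finset.sum_congr rfl fun l _ => by ring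
      have h3 : ∑ l, q j l * (((b l - ∑ k, s k * κ k l : ℝ)) : ℂ) =
          ∑ l, q j l * ((b l : ℝ) : ℂ) - ∑ k, (s k : ℂ) * ∑ l, q j l * ((κ k l : ℝ) : ℂ) := by
        simp only [Complex.ofReal_sub, Complex.ofReal_sum, Complex.ofReal_mul, mul_sub,
          Finset.sum_sub_distrib, Finset.mul_sum]
        congr 1
        rw [Finset.sum_comm]
        exact Finset.sum_congr rfl fun k _ => Finset.sum_congr rfl fun l _ => by ring
      rw [Pi.zero_apply, h3]
      simp only [hκ']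
      rw [h2] at h1
      have h4 : ∑ k, (s k : ℂ) * (Complex.I * A j k) = Complex.I * ∑ k, (s k : ℂ) * A j k := by
        rw [Finset.mul_sum]
        exact Finset.sum_congr rfl fun k _ => by ring
      rw [h4]
      have h5 : ∑ k, (s k : ℂ) * A j k = - (Complex.I * ∑ l, q j l * ((b l : ℝ) : ℂ)) := by
        linear_combination h1
      rw [h5]
      linear_combination (∑ l, q j l * ((b l : ℝ) : ℂ)) * Complex.I_mul_I
    refine ⟨Sum.elim (fun k => (s k : ℂ)) (fun m => ((u m : ℝ) : ℂ)), ?_⟩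
    funext l
    simp only [Phi, Sum.elim_inl, Sum.elim_inr]
    have h6 : ∑ m, ((u m : ℝ) : ℂ) * ((Pm l m : ℝ) : ℂ) = ((u l : ℝ) : ℂ) := by
      have h7 := hPm' u l
      rw [hpr1 u hu0] at h7
      rw [← h7]
      push_cast
      rfl
    rw [h6, hu]
    simp only [hz]
    push_cast
    simp only [mul_add, Finset.sum_add_distrib]
    rw [mul_sub, Finset.mul_sum]
    have h8 : ∑ k, (s k : ℂ) * (Complex.I * ((κ k l : ℝ) : ℂ)) =
        ∑ k, Complex.I * ((s k : ℂ) * ((κ k l : ℝ) : ℂ)) :=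
      Finset.sum_congr rfl fun k _ => by ring
    rw [h8]
    ring
  have hlin : ∀ (v v' : Fin c ⊕ Fin n → ℂ) (r : ℂ), Phi z Pm (fun i => v i + r * v' i) =
      fun l => Phi z Pm v l + r * Phi z Pm v' l := by
    intro v v' r
    funext l
    simp only [Phi, add_mul, Finset.sum_add_distrib, mul_add]
    have h1 : ∑ k, r * v' (Sum.inl k) * z k l = r * ∑ k, v' (Sum.inl k) * z k l := by
      rw [Finset.mul_sum]
      exact Finset.sum_congr rfl fun k _ => by ring
    have h2 : ∑ m, r * v' (Sum.inr m) * ((Pm l m : ℝ) : ℂ) =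
        r * ∑ m, v' (Sum.inr m) * ((Pm l m : ℝ) : ℂ) := by
      rw [Finset.mul_sum]
      exact Finset.sum_congr rfl fun k _ => by ring
    rw [h1, h2]
    ring
  have hsurj : ∀ w : Fin n → ℂ, (∀ j, ∑ l, q j l * w l = 0) → ∃ v, Phi z Pm v = w := by
    intro w hw
    -- `σ` with `∑ σ_k (q_j · a_k) = q_j · Re w`
    set rhs : Fin c → ℂ := fun j => ∑ l, q j l * (((w l).re : ℝ) : ℂ) with hrhs
    set σ : Fin c → ℂ := (Matrix.of A)⁻¹.mulVec rhs with hσ
    have hσ' : ∀ j, ∑ k, A j k * σ k = rhs j := by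
      intro j
      have h1 : (Matrix.of A).mulVec σ = rhs := by
        rw [hσ, Matrix.mulVec_mulVec, Matrix.mul_nonsing_inv _ (isUnit_iff_ne_zero.2 hAdet),
          Matrix.one_mulVec]
      have h2 := congrFun h1 j
      exact h2
    have hre : ∀ j, ∑ l, q j l * (((w l).re : ℝ) : ℂ) +
        Complex.I * ∑ l, q j l * (((w l).im : ℝ) : ℂ) = 0 := by
      intro j
      rw [← hw j, Finset.mul_sum, ← Finset.sum_add_distrib]
      refine Finset.sum_congr rfl fun l _ => ?_
      conv_rhs => rw [← Complex.re_add_im (w l)]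
      ring
    have hsp : ∀ k, ((σ k).re : ℂ) + Complex.I * ((σ k).im : ℂ) = σ k := fun k => by
      conv_rhs => rw [← Complex.re_add_im (σ k)]
      ring
    have hs1 : ∀ (s : Fin c → ℂ) (j : Fin c),
        ∑ l, q j l * ∑ k, s k * ((a l k : ℚ) : ℂ) = ∑ k, A j k * s k := by
      intro s j
      simp only [hA, Finset.mul_sum, Finset.sum_mul]
      rw [Finset.sum_comm]
      exact Finset.sum_congr rfl fun k _ => Finset.sum_congr rfl fun l _ => by ring
    -- `u = ∑ Re σ_k a_k + i (Im w + ∑ Im σ_k a_k)`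
    obtain ⟨v, hv⟩ := hreal (fun k => (σ k).re) (fun l => (w l).im + ∑ k, (σ k).im * ((a l k : ℚ) : ℝ)) (by
      intro j
      have h1 : ∑ l, q j l * (∑ k, ((σ k).re : ℂ) * ((a l k : ℚ) : ℂ) +
          Complex.I * (((w l).im + ∑ k, (σ k).im * ((a l k : ℚ) : ℝ) : ℝ) : ℂ)) =
          ∑ l, q j l * (∑ k, σ k * ((a l k : ℚ) : ℂ)) +
            Complex.I * ∑ l, q j l * (((w l).im : ℝ) : ℂ) := by
        rw [Finset.mul_sum, ← Finset.sum_add_distrib]
        refine Finset.sum_congr rfl fun l _ => ?_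
        push_cast
        have h2 : ∑ k, σ k * ((a l k : ℚ) : ℂ) = ∑ k, ((σ k).re : ℂ) * ((a l k : ℚ) : ℂ) +
            Complex.I * ∑ k, ((σ k).im : ℂ) * ((a l k : ℚ) : ℂ) := by
          rw [Finset.mul_sum, ← Finset.sum_add_distrib]
          refine Finset.sum_congr rfl fun k _ => ?_
          conv_lhs => rw [← hsp k]
          ring
        rw [h2]
        ring
      rw [h1, hs1, hσ', hrhs]
      exact hre j)
    -- `u' = - ∑ Im σ_k a_k + i (∑ Re σ_k a_k - Re w)`
    obtain ⟨v', hv'⟩ := hreal (fun k => - (σ k).im) (fun l => ∑ k, (σ k).re * ((a l k : ℚ) : ℝ) - (w l).re) (by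
      intro j
      have h1 : ∑ l, q j l * (∑ k, ((- (σ k).im : ℝ) : ℂ) * ((a l k : ℚ) : ℂ) +
          Complex.I * ((∑ k, (σ k).re * ((a l k : ℚ) : ℝ) - (w l).re : ℝ) : ℂ)) =
          Complex.I * (∑ l, q j l * (∑ k, σ k * ((a l k : ℚ) : ℂ)) -
            ∑ l, q j l * (((w l).re : ℝ) : ℂ)) := by
        rw [← Finset.sum_sub_distrib, Finset.mul_sum]
        refine Finset.sum_congr rfl fun l _ => ?_
        push_cast
        have h2 : ∑ k, σ k * ((a l k : ℚ) : ℂ) = ∑ k, ((σ k).re : ℂ) * ((a l k : ℚ) : ℂ) +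
            Complex.I * ∑ k, ((σ k).im : ℂ) * ((a l k : ℚ) : ℂ) := by
          rw [Finset.mul_sum, ← Finset.sum_add_distrib]
          refine Finset.sum_congr rfl fun k _ => ?_
          conv_lhs => rw [← hsp k]
          ring
        have h3 : ∑ k, -((σ k).im : ℂ) * ((a l k : ℚ) : ℂ) =
            - ∑ k, ((σ k).im : ℂ) * ((a l k : ℚ) : ℂ) := by
          rw [← Finset.sum_neg_distrib]
          exact Finset.sum_congr rfl fun k _ => by ring
        rw [h2, h3]
        linear_combination (- q j l * ∑ k, ((σ k).im : ℂ) * ((a l k : ℚ) : ℂ)) * Complex.I_mul_I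
      rw [h1, hs1, hσ', hrhs]
      simp)
    refine ⟨fun i => v i + Complex.I * v' i, ?_⟩
    rw [hlin, hv, hv']
    funext l
    conv_rhs => rw [← Complex.re_add_im (w l)]
    push_cast
    have h3 : ∑ k, -((σ k).im : ℂ) * ((a l k : ℚ) : ℂ) =
        - ∑ k, ((σ k).im : ℂ) * ((a l k : ℚ) : ℂ) := by
      rw [← Finset.sum_neg_distrib]
      exact Finset.sum_congr rfl fun k _ => by ring
    rw [h3]
    linear_combination (∑ k, ((σ k).re : ℂ) * ((a l k : ℚ) : ℂ) - ((w l).re : ℂ)) * Complex.I_mul_I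
  -- the polynomial
  have hne : ∀ g : MvPolynomial (Fin n) ℂ,
      (∃ w : Fin n → ℂ, (∀ j, ∑ l, q j l * w l = 0) ∧ eval w g ≠ 0) →
      bind₁ (PhiP z Pm) g ≠ 0 := by
    rintro g ⟨w, hw, hg⟩ h0
    obtain ⟨v, hv⟩ := hsurj w hw
    apply hg
    rw [← hv, ← eval_PhiP, h0, map_zero]
  set N : MvPolynomial (Fin c ⊕ Fin n) ℂ :=
    (∏ j, bind₁ (PhiP z Pm) (Gf j)) * bind₁ (PhiP z Pm) (top Q) with hN
  have hN0 : N ≠ 0 := mul_ne_zero (Finset.prod_ne_zero_iff.2 fun j _ => hne _ (hG j)) (hne _ hQ0)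
  obtain ⟨v, hvS, hvN⟩ : ∃ v ∈ Set.pi Set.univ (Sum.elim
      (fun k : Fin c => (fun t : ℝ => (t : ℂ)) '' Set.Ioo (lam k - ε) (lam k + ε))
      (fun _ : Fin n => (fun t : ℝ => (t : ℂ)) '' Set.univ)), eval v N ≠ 0 := by
    by_contra hcon
    push Not at hcon
    apply hN0
    refine MvPolynomial.funext_set _ ?_ (fun x hx => by rw [map_zero]; exact hcon x hx)
    rintro (k | m)
    · exact (Set.Ioo_infinite (by linarith)).image (Complex.ofReal_injective.injOn)
    · exact Set.infinite_univ.image (Complex.ofReal_injective.injOn)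
  have hs : ∀ k, ∃ t : ℝ, |t - lam k| < ε ∧ v (Sum.inl k) = (t : ℂ) := by
    intro k
    obtain ⟨t, ht, ht2⟩ := hvS (Sum.inl k) (Set.mem_univ _)
    refine ⟨t, ?_, ht2.symm⟩
    rw [abs_lt]
    constructor <;> linarith [ht.1, ht.2]
  choose μ hμ1 hμ2 using hs
  have ht : ∀ m, ∃ t : ℝ, v (Sum.inr m) = (t : ℂ) := by
    intro m
    obtain ⟨t, ht, ht2⟩ := hvS (Sum.inr m) (Set.mem_univ _)
    exact ⟨t, ht2.symm⟩
  choose τ hτ using ht
  have hvz : Phi z Pm v = fun l => ∑ k, (μ k : ℂ) * ((a l k : ℚ) : ℂ) +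
      Complex.I * ((∑ k, μ k * κ k l + ∑ m, τ m * Pm l m : ℝ) : ℂ) := by
    funext l
    simp only [Phi, hμ2, hτ, hz]
    push_cast
    simp only [mul_add, Finset.sum_add_distrib, Finset.mul_sum]
    have h8 : ∑ k, (μ k : ℂ) * (Complex.I * ((κ k l : ℝ) : ℂ)) =
        ∑ k, Complex.I * ((μ k : ℂ) * ((κ k l : ℝ) : ℂ)) :=
      Finset.sum_congr rfl fun k _ => by ring
    rw [h8]
    ring
  rw [hN, map_mul, map_prod] at hvN
  simp only [eval_PhiP] at hvN
  have hvG : ∀ j, eval (Phi z Pm v) (Gf j) ≠ 0 := fun j =>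
    Finset.prod_ne_zero_iff.1 (left_ne_zero_of_mul hvN) j (Finset.mem_univ j)
  have hvQ := right_ne_zero_of_mul hvN
  have hqPhi : ∀ j, ∑ l, q j l * Phi z Pm v l = 0 := by
    intro j
    rw [hvz]
    have h1 : ∑ l, q j l * (∑ k, (μ k : ℂ) * ((a l k : ℚ) : ℂ) +
        Complex.I * ((∑ k, μ k * κ k l + ∑ m, τ m * Pm l m : ℝ) : ℂ)) =
        ∑ k, (μ k : ℂ) * ∑ l, q j l * z k l +
          Complex.I * ∑ l, q j l * (((pr τ l : ℝ)) : ℂ) := by
      simp only [hPm', hz]
      push_cast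
      simp only [mul_add, Finset.mul_sum, Finset.sum_add_distrib]
      have e1 : ∑ l, ∑ k, q j l * ((μ k : ℂ) * ((a l k : ℚ) : ℂ)) =
          ∑ k, ∑ l, (μ k : ℂ) * (q j l * ((a l k : ℚ) : ℂ)) := by
        rw [Finset.sum_comm]
        exact Finset.sum_congr rfl fun k _ => Finset.sum_congr rfl fun l _ => by ring
      have e2 : ∑ l, ∑ k, q j l * (Complex.I * ((μ k : ℂ) * ((κ k l : ℝ) : ℂ))) =
          ∑ k, ∑ l, (μ k : ℂ) * (q j l * (Complex.I * ((κ k l : ℝ) : ℂ))) := by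
        rw [Finset.sum_comm]
        exact Finset.sum_congr rfl fun k _ => Finset.sum_congr rfl fun l _ => by ring
      have e3 : ∑ l, q j l * (Complex.I * ((pr τ l : ℝ) : ℂ)) =
          ∑ l, Complex.I * (q j l * ((pr τ l : ℝ) : ℂ)) :=
        Finset.sum_congr rfl fun l _ => by ring
      rw [e1, e2, e3]
      ring
    rw [h1]
    have h2 : ∑ l, q j l * (((pr τ l : ℝ)) : ℂ) = 0 := by
      have := congrFun (hpr0 τ) j
      rw [Lam_apply] at this
      exact this
    rw [h2]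
    simp only [hqz, mul_zero, Finset.sum_const_zero, add_zero]
  refine ⟨μ, hμ1, fun l => ∑ k, μ k * κ k l + ∑ m, τ m * Pm l m, P, Q, hP, hQ, ?_, ?_, ?_⟩
  · intro j
    rw [← hvz, htop, map_mul, map_sum]
    simp only [map_mul, eval_C, eval_X]
    rw [hqPhi, zero_mul]
  · rw [← hvz]
    have e : (Matrix.of fun j k : Fin c => ∑ l, ((a l k : ℚ) : ℂ) *
        eval (Phi z Pm v) (pderiv l (top (P j)))) =
        Matrix.of fun j k : Fin c => eval (Phi z Pm v) (Gf j) * (Matrix.of A) j k := by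
      ext j k
      rw [Matrix.of_apply, Matrix.of_apply, Matrix.of_apply, hA, Finset.mul_sum]
      refine Finset.sum_congr rfl fun l _ => ?_
      rw [htop, Derivation.leibniz, smul_eq_mul, smul_eq_mul, map_add, map_mul, map_mul]
      have h2 : pderiv l (∑ l, C (q j l) * X l : MvPolynomial (Fin n) ℂ) = C (q j l) := by
        rw [map_sum, Finset.sum_eq_single l]
        · rw [pderiv_C_mul, pderiv_X_self, mul_one]
        · intro b _ hb
          rw [pderiv_C_mul, pderiv_X_of_ne hb, mul_zero]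
        · intro h
          exact absurd (Finset.mem_univ l) h
      have h3 : eval (Phi z Pm v) (∑ l, C (q j l) * X l) = 0 := by
        rw [map_sum]
        simp only [map_mul, eval_C, eval_X]
        exact hqPhi j
      rw [h2, h3, eval_C]
      ring
    rw [e, Matrix.det_mul_column]
    exact mul_ne_zero (Finset.prod_ne_zero_iff.2 fun j _ => hvG j) hAdet
  · rw [← hvz]
    exact hvQ

end Pool.Agent.Q72.EL.LM
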