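import Pool.Agent.Q72.EL.Ff
import Pool.Agent.Q98.EL.FLD3

/-!
Project EL (helper72): exponential points in all translates, the refined condition (H), `dim V ≥ n`.
-/

set_option autoImplicit false

namespace Pool.Agent.Q72.EL

open MvPolynomial Filter Topology Metric

open Pool.Agent.Y563.SE (Trs)

open Pool.Agent.Q72.MX (act ta eval_ta trs_eq fA fB)

/-- the monomial `y^m` is algebraic over `ℂ(x)` on `V` -/
def MonAlgV {n : ℕ} (V : Set (Fin n ⊕ Fin n → ℂ)) (m : Fin n → ℤ) : Prop :=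
  ∃ A : Polynomial (MvPolynomial (Fin n) ℂ), (∃ b, A.coeff b ∉ projIdeal V) ∧
    ∀ p ∈ V, (A.map (eval fun l => p (Sum.inl l))).eval (∏ l, p (Sum.inr l) ^ m l) = 0

/-- the polynomial `v^B A(x, u/v)`, `u/v = y^m` -/
noncomputable def clr {n : ℕ} (A : Polynomial (MvPolynomial (Fin n) ℂ)) (m : Fin n → ℤ) :
    MvPolynomial (Fin n ⊕ Fin n) ℂ :=
  ∑ b ∈ Finset.range (A.natDegree + 1), rename Sum.inl (A.coeff b) *
    (∏ l, X (Sum.inr l) ^ (m l).toNat) ^ b * (∏ l, X (Sum.inr l) ^ (-m l).toNat) ^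
      (A.natDegree - b)

theorem aeval_clr {n : ℕ} {L : Type} [Field L] [Algebra ℂ L]
    (A : Polynomial (MvPolynomial (Fin n) ℂ)) (m : Fin n → ℤ) (x y : Fin n → L)
    (hy : ∀ l, y l ≠ 0) :
    aeval (Sum.elim x y) (clr A m) = (∏ l, y l ^ (-m l).toNat) ^ A.natDegree *
      (A.map (aeval x : MvPolynomial (Fin n) ℂ →ₐ[ℂ] L).toRingHom).eval (∏ l, y l ^ m l) := by
  set u : L := ∏ l, y l ^ (m l).toNat with hu
  set v : L := ∏ l, y l ^ (-m l).toNat with hv
  have hv0 : v ≠ 0 := Finset.prod_ne_zero_iff.2 fun l _ => pow_ne_zero _ (hy l)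
  have huv : ∏ l, y l ^ m l = u / v := by
    rw [hu, hv, ← Finset.prod_div_distrib]
    refine Finset.prod_congr rfl fun l _ => ?_
    rcases le_total 0 (m l) with h | h
    · have h1 : (-m l).toNat = 0 := by omega
      rw [h1, pow_zero, div_one]
      conv_lhs => rw [← Int.toNat_of_nonneg h]
      rw [zpow_natCast]
    · have h1 : (m l).toNat = 0 := by omega
      have h2 : m l = -(((-m l).toNat : ℕ) : ℤ) := by omega
      rw [h1, pow_zero]
      conv_lhs => rw [h2]
      rw [zpow_neg, zpow_natCast, one_div]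
  have h3 : (A.map (aeval x : MvPolynomial (Fin n) ℂ →ₐ[ℂ] L).toRingHom).eval (u / v) =
      ∑ b ∈ Finset.range (A.natDegree + 1), aeval x (A.coeff b) * (u / v) ^ b := by
    rw [Polynomial.eval_map, Polynomial.eval₂_eq_sum_range]
    rfl
  rw [huv, h3, clr, map_sum, Finset.mul_sum]
  refine Finset.sum_congr rfl fun b hb => ?_
  have hb' : b ≤ A.natDegree := Nat.lt_succ_iff.mp (Finset.mem_range.mp hb)
  have e1 : aeval (Sum.elim x y) (rename Sum.inl (A.coeff b)) = aeval x (A.coeff b) := by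
    rw [aeval_rename]; rfl
  have e2 : aeval (Sum.elim x y)
      (∏ l, (X (Sum.inr l) : MvPolynomial (Fin n ⊕ Fin n) ℂ) ^ (m l).toNat) = u := by
    rw [map_prod, hu]
    exact Finset.prod_congr rfl fun l _ => by rw [map_pow, aeval_X]; rfl
  have e3 : aeval (Sum.elim x y)
      (∏ l, (X (Sum.inr l) : MvPolynomial (Fin n ⊕ Fin n) ℂ) ^ (-m l).toNat) = v := by
    rw [map_prod, hv]
    exact Finset.prod_congr rfl fun l _ => by rw [map_pow, aeval_X]; rfl
  rw [map_mul, map_mul, map_pow, map_pow, e1, e2, e3, div_pow]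
  have h4 : v ^ A.natDegree = v ^ (A.natDegree - b) * v ^ b := by
    rw [← pow_add]; congr 1; omega
  rw [h4]
  have h5 : v ^ b ≠ 0 := pow_ne_zero _ hv0
  field_simp

theorem monAlg_transfer {n : ℕ} {V : Set (Fin n ⊕ Fin n → ℂ)}
    (hV0 : ∀ p ∈ V, ∀ l : Fin n, p (Sum.inr l) ≠ 0)
    {E E' : Type} [Field E] [Algebra ℂ E] [Field E'] [Algebra ℂ E'] {x y : Fin n → E}
    {x' y' : Fin n → E'} (hxy : ∀ f, aeval (Sum.elim x y) f = 0 ↔ ∀ p ∈ V, eval p f = 0)
    (hy' : ∀ l, y' l ≠ 0) (hx' : ∀ g : MvPolynomial (Fin n) ℂ, aeval x' g = 0 ↔ aeval x g = 0)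
    (hxy' : ∀ f : MvPolynomial (Fin n ⊕ Fin n) ℂ, aeval (Sum.elim x y) f = 0 →
      aeval (Sum.elim x' y') f = 0) {m : Fin n → ℤ} (hm : MonAlgV V m) :
    IsAlgebraic (IntermediateField.adjoin ℂ (Set.range x')) (∏ l, y' l ^ m l) := by
  obtain ⟨A, ⟨b, hb⟩, hA⟩ := hm
  have h1 : aeval (Sum.elim x y) (clr A m) = 0 := by
    rw [hxy]
    intro p hp
    have h2 := aeval_clr (L := ℂ) A m (fun l => p (Sum.inl l)) (fun l => p (Sum.inr l)) (hV0 p hp)
    have h3 : Sum.elim (fun l => p (Sum.inl l)) (fun l => p (Sum.inr l)) = p := by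
      funext s
      rcases s with s | s <;> rfl
    rw [h3] at h2
    have h4 : (aeval (fun l => p (Sum.inl l)) : MvPolynomial (Fin n) ℂ →ₐ[ℂ] ℂ).toRingHom =
        eval (fun l => p (Sum.inl l)) := rfl
    rw [h4, hA p hp, mul_zero] at h2
    exact h2
  have h5 := hxy' _ h1
  rw [aeval_clr A m x' y' hy'] at h5
  have h6 := (mul_eq_zero.1 h5).resolve_left
    (pow_ne_zero _ (Finset.prod_ne_zero_iff.2 fun l _ => pow_ne_zero _ (hy' l)))
  set φ : MvPolynomial (Fin n) ℂ →+* IntermediateField.adjoin ℂ (Set.range x') :=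
    (aeval (fun l => (⟨x' l, IntermediateField.subset_adjoin _ _ ⟨l, rfl⟩⟩ :
      IntermediateField.adjoin ℂ (Set.range x'))) :
        MvPolynomial (Fin n) ℂ →ₐ[ℂ] IntermediateField.adjoin ℂ (Set.range x')).toRingHom with hφ
  have hφ' : ∀ g, ((φ g : IntermediateField.adjoin ℂ (Set.range x')) : E') = aeval x' g := by
    intro g
    have := MvPolynomial.aeval_algebraMap_apply (A := IntermediateField.adjoin ℂ (Set.range x'))
      (B := E') (fun l => (⟨x' l, IntermediateField.subset_adjoin _ _ ⟨l, rfl⟩⟩ :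
      IntermediateField.adjoin ℂ (Set.range x'))) g
    exact this.symm
  refine ⟨A.map φ, ?_, ?_⟩
  · intro h0
    apply hb
    have h7 : φ (A.coeff b) = 0 := by
      have := congrArg (fun r => Polynomial.coeff r b) h0
      simpa [Polynomial.coeff_map] using this
    have h8 : aeval x' (A.coeff b) = 0 := by
      rw [← hφ', h7]; rfl
    have h9 : aeval (Sum.elim x y) (rename Sum.inl (A.coeff b)) = 0 := by
      rw [aeval_rename]
      exact (hx' _).1 h8
    rw [hxy] at h9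
    intro p hp
    have := h9 p hp
    rw [eval_rename] at this
    exact this
  · rw [Polynomial.aeval_def, Polynomial.eval₂_map]
    have h7 : (algebraMap (IntermediateField.adjoin ℂ (Set.range x')) E').comp φ =
        (aeval x' : MvPolynomial (Fin n) ℂ →ₐ[ℂ] E').toRingHom := RingHom.ext hφ'
    rw [h7, ← Polynomial.eval_map]
    exact h6

/-- exponential points are dense in all translates -/
def S_mainM : Prop := ∀ (n c D : ℕ) (I : Ideal (MvPolynomial (Fin n ⊕ Fin n) ℂ))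
  (V : Set (Fin n ⊕ Fin n → ℂ)), EG.IsVar I V → EG.HasDimV V D → n ≤ D → c ≤ n →
  ProjDim V (n - c) →
  HypHM c (projIdeal V) {m | MonAlgV V m} → ∀ d : Fin n ⊕ Fin n → ℂ, (∀ i, d (Sum.inr i) ≠ 0) →
  EG.DenseExp (Trs d V)

theorem mainM (h1 : S_fld3) (hc : S_cut) (h2 : S_ffM) : S_mainM := by
  intro n c D I V hV hdim hnD hcn hproj hH d hd
  obtain ⟨c', E, iE, aE, x, y, i, hcc', hxy, hpt, hy, hind, halg, htr⟩ :=
    h1 n c D I V hV hdim hnD hcn hproj
  intro H hHne
  obtain ⟨p, hp, hpH⟩ := hHne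
  rw [trs_eq] at hp
  obtain ⟨u, hu, rfl⟩ := hp
  have hta : aeval (Sum.elim x y) (ta d H) ≠ 0 := by
    intro h
    apply hpH
    rw [← eval_ta]
    exact (hxy _).1 h u hu
  obtain ⟨E', iE', aE', x', y', i', hy', hind', halg', hx', hxy', hta'⟩ :=
    hc n c c' E x y i hcc' hy hind halg (ta d H) hta
  have hkx : RingHom.ker (aeval x' : MvPolynomial (Fin n) ℂ →ₐ[ℂ] E') =
      RingHom.ker (aeval x : MvPolynomial (Fin n) ℂ →ₐ[ℂ] E) := by
    ext g
    rw [RingHom.mem_ker, RingHom.mem_ker]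
    exact hx' g
  have hker : projIdeal V = RingHom.ker (aeval x' : MvPolynomial (Fin n) ℂ →ₐ[ℂ] E') := by
    rw [hkx]
    ext g
    rw [RingHom.mem_ker]
    have e1 : (aeval (Sum.elim x y)) (rename Sum.inl g) = aeval x g := by
      rw [aeval_rename]
      rfl
    have e2 := hxy (rename Sum.inl g)
    rw [e1] at e2
    rw [e2]
    constructor
    · intro hg p hp
      rw [eval_rename]
      exact hg p hp
    · intro hg p hp
      have := hg p hp
      rw [eval_rename] at this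
      exact this
  have hV0 : ∀ p ∈ V, ∀ l : Fin n, p (Sum.inr l) ≠ 0 := fun p hp => ((hpt p).1 hp).2
  obtain ⟨z, hz1, hz2⟩ := h2 n c E' x' y' i' hy' hind' halg' (by rw [hkx]; exact htr)
    {m | MonAlgV V m} (fun m hm => monAlg_transfer hV0 hxy hy' hx' hxy' hm)
    (by rw [← hker]; exact hH) (ta d H) hta'
    (fun l => Complex.exp (d (Sum.inl l)) / d (Sum.inr l))
    (fun l => div_ne_zero (Complex.exp_ne_zero _) (hd l))
  have hz1' : (Sum.elim z fun l => Complex.exp (d (Sum.inl l)) / d (Sum.inr l) *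
      Complex.exp (z l)) ∈ EG.Pt (Sum.elim x y) := fun g hg => hz1 g (hxy' g hg)
  have hmem : (Sum.elim z fun l => Complex.exp (d (Sum.inl l)) / d (Sum.inr l) *
      Complex.exp (z l)) ∈ V := by
    rw [hpt]
    refine ⟨hz1', fun j => ?_⟩
    simp only [Sum.elim_inr]
    exact mul_ne_zero (div_ne_zero (Complex.exp_ne_zero _) (hd j)) (Complex.exp_ne_zero _)
  have hact : act d (Sum.elim z fun l => Complex.exp (d (Sum.inl l)) / d (Sum.inr l) *
      Complex.exp (z l)) = Sum.elim (fun l => z l + d (Sum.inl l))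
        (fun l => Complex.exp (z l + d (Sum.inl l))) := by
    funext s
    rcases s with s | s
    · simp [act, fA, fB]
    · have := hd s
      simp only [act, fA, fB, Sum.elim_inr, add_zero]
      rw [Complex.exp_add]
      field_simp
  refine ⟨fun l => z l + d (Sum.inl l), ?_, ?_⟩
  · rw [trs_eq, ← hact]
    exact ⟨_, hmem, rfl⟩
  · rw [eval_ta, hact] at hz2
    exact hz2

end Pool.Agent.Q72.EL
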