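import Pool.Agent.Q72.EL.All
import Pool.Agent.Q72.EL.DomSlope
import Pool.Agent.Q72.EL.MainM
import Pool.Agent.Q72.EL.LinM
import Pool.Agent.Q195.EL.CUT

/-! Project EL (helper72): final form. -/

set_option autoImplicit false

namespace Pool.Agent.Q72.EL

theorem all_mainM (h1 : S_dom) (h2 : S_slope) : S_mainM :=
  mainM Pool.Agent.Q98.ELQ.fld3 Pool.Agent.Q195.EL.cut (all_ffM h1 h2)

end Pool.Agent.Q72.EL
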