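import Pool.Agent.Q72.EL.DomSlope
import Pool.Agent.Q72.EL.Fin
import Pool.Agent.Q285.EL.Linh
import Pool.Agent.Q26.EL.Fam2

/-! Project EL (helper72): families of systems, final form. -/

set_option autoImplicit false

namespace Pool.Agent.Q72.EL

open MvPolynomial

theorem all_ff (h1 : S_dom) (h2 : S_slope) : S_ff := by
  intro n c E _ _ x y i hy hind halg htr hH H hHne γ hγ
  exact all_ffM h1 h2 n c E x y i hy hind halg htr ∅ (fun m hm => absurd hm (Set.notMem_empty m))
    (fun a ha _ => hH a ha) H hHne γ hγ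

theorem all_fame (h1 : S_dom) (h2 : S_slope) : S_fame :=
  Pool.Agent.Q285.EL.fame (Pool.Agent.Q26.EL.fam (all_ff h1 h2))

theorem eval_rename_const {n c : ℕ} (t : Fin c → ℂ) (x : Fin n → ℂ)
    (H : MvPolynomial (Fin c ⊕ Fin n) ℂ) (h : ∀ α, eval x (cf H α) = 0) :
    eval (Sum.elim t x) H = 0 := by
  rw [eval_sum']
  exact Finset.sum_eq_zero fun α _ => by rw [h α, zero_mul]

/-- `NZ I H` means that `H` does not vanish identically on the product of `ℂ^c` and the zero set of `I` -/
theorem nz_iff {n c : ℕ} {I : Ideal (MvPolynomial (Fin n) ℂ)} (hI : I.IsPrime)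
    (H : MvPolynomial (Fin c ⊕ Fin n) ℂ) :
    NZ I H ↔ ∃ (x : Fin n → ℂ) (t : Fin c → ℂ), (∀ g ∈ I, eval x g = 0) ∧
      eval (Sum.elim t x) H ≠ 0 := by
  constructor
  · rintro ⟨α, hα⟩
    have h1 : ∃ x : Fin n → ℂ, (∀ g ∈ I, eval x g = 0) ∧ eval x (cf H α) ≠ 0 := by
      by_contra hcon
      push Not at hcon
      apply hα
      have h2 : cf H α ∈ vanishingIdeal ℂ (zeroLocus ℂ I) := by
        rw [mem_vanishingIdeal_iff]
        intro x hx
        rw [mem_zeroLocus_iff] at hx
        have := hcon x (fun g hg => by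
          have := hx g hg
          rwa [← MvPolynomial.coe_aeval_eq_eval])
        rwa [← MvPolynomial.coe_aeval_eq_eval] at this
      rw [MvPolynomial.vanishingIdeal_zeroLocus_eq_radical, hI.radical] at h2
      exact h2
    obtain ⟨x, hx, hxα⟩ := h1
    by_contra hcon
    push Not at hcon
    set q : MvPolynomial (Fin c) ℂ := ∑ β ∈ (sumAlgEquiv ℂ (Fin c) (Fin n) H).support,
      monomial β (eval x (cf H β)) with hq
    have hq0 : q = 0 := by
      apply MvPolynomial.funext
      intro t
      rw [map_zero, ← hcon x t hx, eval_sum', hq, map_sum]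
      refine Finset.sum_congr rfl fun β _ => ?_
      rw [eval_monomial, Finsupp.prod_fintype _ _ (fun i => pow_zero _)]
    have hmem : α ∈ (sumAlgEquiv ℂ (Fin c) (Fin n) H).support := by
      by_contra hns
      apply hxα
      have : cf H α = 0 := notMem_support_iff.1 hns
      rw [this, map_zero]
    have h3 : coeff α q = eval x (cf H α) := by
      rw [hq, coeff_sum, Finset.sum_eq_single α]
      · rw [coeff_monomial, if_pos rfl]
      · intro β _ hβ
        rw [coeff_monomial, if_neg hβ]
      · intro h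
        exact absurd hmem h
    rw [hq0, coeff_zero] at h3
    exact hxα h3.symm
  · rintro ⟨x, t, hx, hne⟩
    by_contra hcon
    unfold NZ at hcon
    push Not at hcon
    exact hne (eval_rename_const t x H fun α => hx _ (hcon α))

end Pool.Agent.Q72.EL
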