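import Pool.Agent.Q72.EL.Stm3
import Pool.Agent.Q195.EL.COL

/-!
Project EL (helper72): the theorem in terms of the function field, with the refined condition (H): only
rational subspaces orthogonal to the monomials which are algebraic over `ℂ(x)`.
-/

set_option autoImplicit false

namespace Pool.Agent.Q72.EL

open MvPolynomial Filter Topology Metric

/-- condition (H) for the rational vectors `a_1, …, a_c` orthogonal to the set `M` -/
def HypHM {n : ℕ} (c : ℕ) (I : Ideal (MvPolynomial (Fin n) ℂ)) (M : Set (Fin n → ℤ)) : Prop :=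
  ∀ a : Fin n → Fin c → ℚ, LinearIndependent ℚ (fun (k : Fin c) (l : Fin n) => a l k) →
    (∀ m ∈ M, ∀ k, ∑ l, (m l : ℚ) * a l k = 0) →
    ∀ (lam : Fin c → ℝ) (ε : ℝ), 0 < ε → ∃ μ : Fin c → ℝ, (∀ j, |μ j - lam j| < ε) ∧
      ∃ κ : Fin n → ℝ, Good I a fun l =>
        ∑ j, (μ j : ℂ) * ((a l j : ℚ) : ℂ) + Complex.I * (κ l : ℂ)

theorem HypHM.mono {n c : ℕ} {I : Ideal (MvPolynomial (Fin n) ℂ)} {M M' : Set (Fin n → ℤ)}
    (h : HypHM c I M) (hM : M ⊆ M') : HypHM c I M' :=
  fun a ha hm => h a ha fun m hm' => hm m (hM hm')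

section

variable {n c : ℕ} {E : Type} [Field E] [Algebra ℂ E]

theorem mem_O_of_adjoin (G : Gen n c E) {u : E}
    (hu : u ∈ IntermediateField.adjoin ℂ (Set.range G.x)) : u ∈ G.O := by
  have hpoly : ∀ g : MvPolynomial (Fin n) ℂ, aeval G.x g ∈ G.O := by
    intro g
    by_cases h : aeval G.x g = 0
    · rw [h]; exact zero_mem _
    · rw [← ValuationSubring.valuation_le_one_iff, G.hO g h]
  have hadj : ∀ r ∈ Algebra.adjoin ℂ (Set.range G.x), ∃ g : MvPolynomial (Fin n) ℂ,
      aeval G.x g = r := by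
    intro r hr
    rw [Algebra.adjoin_range_eq_range_aeval] at hr
    exact hr
  obtain ⟨r, hr, s, hs, rfl⟩ := IntermediateField.mem_adjoin_iff_div.1 hu
  obtain ⟨g, rfl⟩ := hadj r hr
  obtain ⟨g', rfl⟩ := hadj s hs
  by_cases h : aeval G.x g' = 0
  · rw [h, div_zero]; exact zero_mem _
  · rw [div_eq_mul_inv]
    refine mul_mem (hpoly g) ?_
    rw [← ValuationSubring.valuation_le_one_iff, map_inv₀, G.hO g' h, inv_one]

theorem mem_O_of_alg (G : Gen n c E) {u : E}
    (hu : IsAlgebraic (IntermediateField.adjoin ℂ (Set.range G.x)) u) : u ∈ G.O := by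
  have h1 : IsIntegral (IntermediateField.adjoin ℂ (Set.range G.x)) u := hu.isIntegral
  obtain ⟨p, hp, hpu⟩ := h1
  set φ : IntermediateField.adjoin ℂ (Set.range G.x) →+* G.O :=
    { toFun := fun r => ⟨(r : E), mem_O_of_adjoin G r.2⟩
      map_one' := rfl
      map_mul' := fun _ _ => rfl
      map_zero' := rfl
      map_add' := fun _ _ => rfl } with hφ
  have h2 : IsIntegral G.O u := by
    refine ⟨p.map φ, hp.map φ, ?_⟩
    rw [Polynomial.eval₂_map]
    have : (algebraMap G.O E).comp φ =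
        algebraMap (IntermediateField.adjoin ℂ (Set.range G.x)) E := rfl
    rw [this]
    exact hpu
  obtain ⟨v, hv⟩ := (IsIntegrallyClosed.isIntegral_iff (R := G.O) (K := E)).1 h2
  rw [← hv]
  exact v.2

theorem val_alg (G : Gen n c E) {u : E} (hu0 : u ≠ 0)
    (hu : IsAlgebraic (IntermediateField.adjoin ℂ (Set.range G.x)) u) :
    G.O.valuation u = 1 := by
  have h1 := (ValuationSubring.valuation_le_one_iff G.O u).2 (mem_O_of_alg G hu)
  have h2 := (ValuationSubring.valuation_le_one_iff G.O u⁻¹).2 (mem_O_of_alg G hu.inv)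
  rw [map_inv₀] at h2
  have h3 : G.O.valuation u ≠ 0 := (Valuation.ne_zero_iff _).2 hu0
  refine le_antisymm h1 ?_
  by_contra h4
  rw [not_le] at h4
  have h5 : 1 < (G.O.valuation u)⁻¹ := (one_lt_inv₀ (zero_lt_iff.2 h3)).2 h4
  exact absurd h2 (not_le.2 h5)

/-- the directions of the end are orthogonal to the monomials algebraic over `ℂ(x)` -/
theorem orth (G : Gen n c E) (m : Fin n → ℤ)
    (h : IsAlgebraic (IntermediateField.adjoin ℂ (Set.range G.x)) (∏ l, G.y l ^ m l))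
    (k : Fin c) : ∑ l, (m l : ℚ) * G.a l k = 0 := by
  have hf0 : ∏ l, G.y l ^ m l ≠ 0 :=
    Finset.prod_ne_zero_iff.2 fun l _ => zpow_ne_zero _ (G.hy l)
  have h1 := val_alg G hf0 h
  have h2 : G.O.valuation (∏ j, G.y (G.i j) ^ (∑ l, m l * G.b l j)) = 1 := by
    have e1 : ∏ j, G.y (G.i j) ^ (∑ l, m l * G.b l j) =
        ∏ l, (∏ j, G.y (G.i j) ^ G.b l j) ^ m l := by
      have e2 : ∀ j, G.y (G.i j) ^ (∑ l, m l * G.b l j) =
          ∏ l, (G.y (G.i j) ^ G.b l j) ^ m l := by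
        intro j
        have hz : ∀ (s : Finset (Fin n)), G.y (G.i j) ^ (∑ l ∈ s, m l * G.b l j) =
            ∏ l ∈ s, (G.y (G.i j) ^ G.b l j) ^ m l := by
          classical
          intro s
          induction s using Finset.induction_on with
          | empty => simp
          | insert a s ha ih =>
            rw [Finset.sum_insert ha, Finset.prod_insert ha, zpow_add₀ (G.hy _), ih, ← zpow_mul,
              mul_comm (m a)]
        exact hz Finset.univ
      rw [Finset.prod_congr rfl fun j _ => e2 j, Finset.prod_comm]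
      exact Finset.prod_congr rfl fun l _ => Finset.prod_zpow _ _ _
    rw [e1, map_prod]
    have e3 : ∀ l, G.O.valuation ((∏ j, G.y (G.i j) ^ G.b l j) ^ m l) =
        (G.O.valuation (G.y l ^ m l)) ^ G.N := by
      intro l
      rw [map_zpow₀, ← G.hb l, map_zpow₀, ← zpow_natCast, ← zpow_natCast, ← zpow_mul, ← zpow_mul,
        mul_comm]
    rw [Finset.prod_congr rfl fun l _ => e3 l, Finset.prod_pow, ← map_prod, h1, one_pow]
  have h3 := congrFun (Pool.Agent.Q195.EL.mon_one G _ h2) k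
  simp only [Pi.zero_apply] at h3
  unfold Gen.a
  have h4 : ∑ l, (m l : ℚ) * ((G.b l k : ℚ) / G.N) = ((∑ l, m l * G.b l k : ℤ) : ℚ) / G.N := by
    push_cast
    rw [Finset.sum_div]
    exact Finset.sum_congr rfl fun l _ => by ring
  rw [h4, h3]
  simp

end

/-- the theorem in terms of the function field -/
def S_ffM : Prop := ∀ (n c : ℕ) (E : Type) [Field E] [Algebra ℂ E] (x y : Fin n → E)
  (i : Fin c → Fin n), (∀ l, y l ≠ 0) →
  AlgebraicIndependent (IntermediateField.adjoin ℂ (Set.range x)) (fun j => y (i j)) →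
  (∀ l, IsAlgebraic (IntermediateField.adjoin ℂ (Set.range (Sum.elim (fun j => y (i j)) x)))
    (y l)) →
  Algebra.trdeg ℂ (MvPolynomial (Fin n) ℂ ⧸
    (RingHom.ker (aeval x : MvPolynomial (Fin n) ℂ →ₐ[ℂ] E))) + (c : Cardinal) ≤ (n : Cardinal) →
  ∀ M : Set (Fin n → ℤ),
  (∀ m ∈ M, IsAlgebraic (IntermediateField.adjoin ℂ (Set.range x)) (∏ l, y l ^ m l)) →
  HypHM c (RingHom.ker (aeval x : MvPolynomial (Fin n) ℂ →ₐ[ℂ] E)) M →
  ∀ H : MvPolynomial (Fin n ⊕ Fin n) ℂ, aeval (Sum.elim x y) H ≠ 0 →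
  ∀ γ : Fin n → ℂ, (∀ l, γ l ≠ 0) →
  ∃ z : Fin n → ℂ, Sum.elim z (fun l => γ l * Complex.exp (z l)) ∈ EG.Pt (Sum.elim x y) ∧
    eval (Sum.elim z (fun l => γ l * Complex.exp (z l))) H ≠ 0

theorem ffM (h1 : S_ends) (h2 : S_region) (h3 : S_solve) : S_ffM := by
  intro n c E _ _ x y i hy hind halg htr M hM hH H hHne γ hγ
  obtain ⟨lam, hlam⟩ := Pool.Agent.Q195.EL.exists_lam c
  obtain ⟨G, e1, e2, e3, e4⟩ := h1 n c E x y i lam hy hind halg hlam
  have hI : G.I = RingHom.ker (aeval x : MvPolynomial (Fin n) ℂ →ₐ[ℂ] E) := by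
    rw [← e1]; rfl
  have hreg : HasRegion G.I G.a G.lam := by
    refine h2 n c G.I G.a G.lam G.I_prime ?_ ?_
    · rw [hI]; exact htr
    · rw [hI]
      refine hH G.a (Pool.Agent.Q195.EL.col n c E G) (fun m hm k => orth G m ?_ k) G.lam
      rw [e1, e2]
      exact hM m hm
  obtain ⟨z, hz1, hz2⟩ := h3 n c E G H (by rw [e1, e2]; exact hHne) hreg γ hγ
  rw [e1, e2] at hz1
  exact ⟨z, hz1, hz2⟩

end Pool.Agent.Q72.EL
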