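import Pool.Agent.Q72.EL.Stm
import Mathlib.Analysis.Calculus.ImplicitContDiff

/-!
Project EL (helper72): homogenization of polynomials, derivatives.
-/

set_option autoImplicit false

namespace Pool.Agent.Q72.EL

open MvPolynomial Filter Topology Metric

theorem hasStrictFDerivAt_eval {ι : Type*} [Fintype ι] (F : MvPolynomial ι ℂ) (z : ι → ℂ) :
    ∃ L : (ι → ℂ) →L[ℂ] ℂ, (∀ v, L v = ∑ j, v j * eval z (pderiv j F)) ∧
      HasStrictFDerivAt (fun z => eval z F) L z := by
  classical
  induction F using MvPolynomial.induction_on with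
  | C a =>
    refine ⟨0, by simp, ?_⟩
    simpa using hasStrictFDerivAt_const a z
  | add p q hp hq =>
    obtain ⟨L1, h1, h1'⟩ := hp
    obtain ⟨L2, h2, h2'⟩ := hq
    refine ⟨L1 + L2, ?_, ?_⟩
    · intro v
      simp [h1, h2, mul_add, Finset.sum_add_distrib]
    · have h3 := h1'.add h2'
      have h4 : (fun z => eval z (p + q)) = (fun z => eval z p) + fun z => eval z q := by
        funext z
        simp
      rw [h4]
      exact h3
  | mul_X p i hp =>
    obtain ⟨L1, h1, h1'⟩ := hp
    have h2 := h1'.mul ((ContinuousLinearMap.proj (R := ℂ) (φ := fun _ : ι => ℂ)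
      i).hasStrictFDerivAt (x := z))
    have h4 : (fun z => eval z (p * X i)) = (fun z => eval z p) *
        fun z => (ContinuousLinearMap.proj (R := ℂ) (φ := fun _ : ι => ℂ) i) z := by
      funext z
      simp
    refine ⟨eval z p • ContinuousLinearMap.proj i + (z i) • L1, ?_, ?_⟩
    rotate_left
    · rw [h4]
      exact h2
    · intro v
      simp only [add_apply, smul_apply,
        ContinuousLinearMap.proj_apply, smul_eq_mul, h1, Derivation.leibniz, pderiv_X, map_add,
        map_mul, eval_X, mul_add, Finset.sum_add_distrib, Finset.mul_sum]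
      congr 1
      · rw [Finset.sum_eq_single i]
        · simp; ring
        · intro j _ hj
          rw [Pi.single_eq_of_ne hj.symm]
          simp
        · simp
      · exact Finset.sum_congr rfl fun j _ => by ring

theorem contDiff_eval {ι : Type*} [Fintype ι] (F : MvPolynomial ι ℂ) :
    ContDiff ℂ 1 (fun z : ι → ℂ => eval z F) := by
  induction F using MvPolynomial.induction_on with
  | C a => simpa using contDiff_const
  | add p q hp hq =>
    simp only [map_add]
    exact hp.add hq
  | mul_X p i hp =>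
    simp only [map_mul, eval_X]
    exact hp.mul (contDiff_apply ℂ ℂ i)

/-- homogenization of a polynomial -/
noncomputable def hg {n : ℕ} (P : MvPolynomial (Fin n) ℂ) (p : ℂ × (Fin n → ℂ)) : ℂ :=
  ∑ k ∈ Finset.range (P.totalDegree + 1),
    p.1 ^ (P.totalDegree - k) * eval p.2 (homogeneousComponent k P)

theorem hg_contDiff {n : ℕ} (P : MvPolynomial (Fin n) ℂ) : ContDiff ℂ 1 (hg P) := by
  unfold hg
  refine ContDiff.sum fun k _ => ?_
  exact (contDiff_fst.pow _).mul ((contDiff_eval _).comp contDiff_snd)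

theorem hg_zero {n : ℕ} (P : MvPolynomial (Fin n) ℂ) (ζ : Fin n → ℂ) :
    hg P (0, ζ) = eval ζ (top P) := by
  unfold hg top
  rw [Finset.sum_eq_single P.totalDegree]
  · simp
  · intro k hk hk'
    have : P.totalDegree - k ≠ 0 := by
      have := Finset.mem_range.mp hk
      omega
    simp [zero_pow this]
  · intro h
    exact absurd (Finset.mem_range.mpr (Nat.lt_succ_self _)) h

theorem eval_smul_hom {n : ℕ} {P : MvPolynomial (Fin n) ℂ} {k : ℕ} (hP : P.IsHomogeneous k)
    (c : ℂ) (x : Fin n → ℂ) : eval (c • x) P = c ^ k * eval x P := by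
  rw [eval_eq', eval_eq', Finset.mul_sum]
  refine Finset.sum_congr rfl fun d hd => ?_
  have hdk : ∑ i, d i = k := by
    have := hP (mem_support_iff.mp hd)
    rw [Finsupp.weight_apply, Finsupp.sum_fintype _ _ (by simp)] at this
    simpa using this
  simp only [Pi.smul_apply, smul_eq_mul, mul_pow, Finset.prod_mul_distrib]
  rw [Finset.prod_pow_eq_pow_sum, hdk]
  ring

theorem hg_ne {n : ℕ} (P : MvPolynomial (Fin n) ℂ) {ε : ℂ} (hε : ε ≠ 0) (ζ : Fin n → ℂ) :
    hg P (ε, ζ) = ε ^ P.totalDegree * eval (ε⁻¹ • ζ) P := by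
  conv_rhs => rw [← sum_homogeneousComponent P, map_sum, Finset.mul_sum]
  rw [sum_homogeneousComponent P]
  unfold hg
  refine Finset.sum_congr rfl fun k hk => ?_
  have hk' : k ≤ P.totalDegree := Nat.lt_succ_iff.mp (Finset.mem_range.mp hk)
  rw [eval_smul_hom (homogeneousComponent_isHomogeneous k P)]
  simp only
  rw [pow_sub₀ _ hε hk', inv_pow]
  ring

/-- the point `z + m + ∑ ω_k a_k` -/
noncomputable def pt {n c : ℕ} (a : Fin n → Fin c → ℚ) (z m : Fin n → ℂ) (ω : Fin c → ℂ) :
    Fin n → ℂ := fun l => z l + m l + ∑ j, ω j * ((a l j : ℚ) : ℂ)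

theorem pt_contDiff {n c : ℕ} (a : Fin n → Fin c → ℚ) (z : Fin n → ℂ) :
    ContDiff ℂ 1 (fun q : (Fin n → ℂ) × (Fin c → ℂ) => pt a z q.1 q.2) := by
  unfold pt
  refine contDiff_pi.mpr fun l => ?_
  refine ContDiff.add (contDiff_const.add ((contDiff_apply ℂ ℂ l).comp contDiff_fst)) ?_
  refine ContDiff.sum fun j _ => ?_
  exact ((contDiff_apply ℂ ℂ j).comp contDiff_snd).mul contDiff_const

end Pool.Agent.Q72.EL
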