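import Pool.Agent.Q72.EL.Stm
import Pool.Agent.Q72.EG.Tr

/-!
Project EL (helper72): further statements, with complete proofs in the docstrings.
-/

set_option autoImplicit false

namespace Pool.Agent.Q72.EL

open MvPolynomial Filter Topology Metric

/-- Condition (H): for all linearly independent rational vectors `a_1, …, a_c` the `λ ∈ ℝ^c` for which some point
`∑ λ_k a_k + iκ`, `κ` real, is good are dense. -/
def HypH {n : ℕ} (c : ℕ) (I : Ideal (MvPolynomial (Fin n) ℂ)) : Prop :=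
  ∀ a : Fin n → Fin c → ℚ, LinearIndependent ℚ (fun (k : Fin c) (l : Fin n) => a l k) →
    ∀ (lam : Fin c → ℝ) (ε : ℝ), 0 < ε → ∃ μ : Fin c → ℝ, (∀ j, |μ j - lam j| < ε) ∧
      ∃ κ : Fin n → ℝ, Good I a fun l =>
        ∑ j, (μ j : ℂ) * ((a l j : ℚ) : ℂ) + Complex.I * (κ l : ℂ)

/-- JOB COL. The vectors `a_k = (a_lk)_l` are linearly independent.
Proof. If `α ≠ β` are in `ℤ^c` then `(α - β) · λ ≠ 0` (`hlam`), so `O.valuation (∏ Y_j^{(α-β)_j}) ≠ 1` by `hmon` (for `α - β`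
or for `β - α`), `Y_j = y_{i_j} ≠ 0`. By `hb` for `l = i_j`: `v(Y_j^N) = v(∏_k Y_k^{b_{i_j k}})`, so `b_{i_j k} = N δ_jk`,
`a_{i_j k} = δ_jk`. So a linear relation between the `a_k` has the coefficients zero. -/
def S_col : Prop := ∀ (n c : ℕ) (E : Type) [Field E] [Algebra ℂ E] (G : Gen n c E),
  LinearIndependent ℚ (fun (k : Fin c) (l : Fin n) => G.a l k)

/-- JOB FF2. The theorem in terms of the function field.
Proof (uses S_ends, S_region, S_solve, S_col). Choose a `ℚ`-linearly independent `lam : Fin c → ℝ` (`ℝ` has infinite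
dimension over `ℚ`), take `G` from S_ends, its columns are independent by S_col, so S_region (with `I = G.I`, which is the
kernel of `aeval x`, prime) applies, and S_solve gives the point. -/
def S_ff : Prop := ∀ (n c : ℕ) (E : Type) [Field E] [Algebra ℂ E] (x y : Fin n → E)
  (i : Fin c → Fin n), (∀ l, y l ≠ 0) →
  AlgebraicIndependent (IntermediateField.adjoin ℂ (Set.range x)) (fun j => y (i j)) →
  (∀ l, IsAlgebraic (IntermediateField.adjoin ℂ (Set.range (Sum.elim (fun j => y (i j)) x)))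
    (y l)) →
  Algebra.trdeg ℂ (MvPolynomial (Fin n) ℂ ⧸
    (RingHom.ker (aeval x : MvPolynomial (Fin n) ℂ →ₐ[ℂ] E))) + (c : Cardinal) ≤ (n : Cardinal) →
  HypH c (RingHom.ker (aeval x : MvPolynomial (Fin n) ℂ →ₐ[ℂ] E)) →
  ∀ H : MvPolynomial (Fin n ⊕ Fin n) ℂ, aeval (Sum.elim x y) H ≠ 0 →
  ∀ γ : Fin n → ℂ, (∀ l, γ l ≠ 0) →
  ∃ z : Fin n → ℂ, Sum.elim z (fun l => γ l * Complex.exp (z l)) ∈ EG.Pt (Sum.elim x y) ∧
    eval (Sum.elim z (fun l => γ l * Complex.exp (z l))) H ≠ 0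

/-- the ideal of the closure of the projection of `V` to `ℂ^n` -/
def projIdeal {n : ℕ} (V : Set (Fin n ⊕ Fin n → ℂ)) : Ideal (MvPolynomial (Fin n) ℂ) where
  carrier := {g | ∀ p ∈ V, eval (fun l => p (Sum.inl l)) g = 0}
  add_mem' := fun {f g} hf hg p hp => by rw [map_add, hf p hp, hg p hp, add_zero]
  zero_mem' := fun p _ => map_zero _
  smul_mem' := fun c g hg p hp => by rw [smul_eq_mul, map_mul, hg p hp, mul_zero]

/-- JOB MAIN2. Exponential points are dense in all translates.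
Proof (uses S_fld, S_ff). `E, x, y, i` from S_fld; `projIdeal V` is the kernel of `aeval x` (S_fld, first property, applied to
`rename Sum.inl g`). For the translate `c V` put `γ_l = e^{c_{x,l}} / c_{y,l}`, `H' = ta c H` (`MX.ta`, `eval_ta`: the polynomial with
`H'(u) = H(act c u)`, see `Pool.Agent.Q72.MX.Tr`, `Pool.Agent.Q72.EG.Tr`); `H' ≠ 0` on `V`, so `aeval (x, y) H' ≠ 0`. S_ff gives `z` with
`u = (z, γ e^z) ∈ Pt`, so `u ∈ V` (nonzero `y` coordinates), and `act c u = (z + c_x, c_y γ e^z) = (z', e^{z'})`,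
`z' = z + c_x`. -/
def S_main : Prop := ∀ (n c : ℕ) (I : Ideal (MvPolynomial (Fin n ⊕ Fin n) ℂ))
  (V : Set (Fin n ⊕ Fin n → ℂ)), EG.IsVar I V → EG.HasDimV V n → c ≤ n → ProjDim V (n - c) →
  HypH c (projIdeal V) → ∀ d : Fin n ⊕ Fin n → ℂ, (∀ i, d (Sum.inr i) ≠ 0) →
  EG.DenseExp (Pool.Agent.Y563.SE.Trs d V)

/-- JOB LINH. Condition (H) for a linear subspace.
Proof. `P_j = q_j · X - C d_j`, `top P_j = q_j · X` (the form is not zero: the real and imaginary parts of the `q_j` are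
independent), `Q = 1`, `top Q = 1`. Given `a` and `lam` take `μ = lam` and `κ` real with
`q_j · κ = i ∑_k μ_k (q_j · a_k)` for all `j` (2c real linear equations with independent left hand sides: the real linear
map `κ ↦ (Re q_j · κ, Im q_j · κ)` is surjective). The determinant is `det (q_j · a_k)`. -/
def S_linh : Prop := ∀ (n c : ℕ) (q : Fin c → Fin n → ℂ) (d : Fin c → ℂ),
  LinearIndependent ℝ (Sum.elim (fun (j : Fin c) (l : Fin n) => (q j l).re)
    (fun (j : Fin c) (l : Fin n) => (q j l).im)) →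
  (∀ a : Fin n → Fin c → ℚ, LinearIndependent ℚ (fun (k : Fin c) (l : Fin n) => a l k) →
    Matrix.det (Matrix.of fun j k : Fin c => ∑ l, q j l * ((a l k : ℚ) : ℂ)) ≠ 0) →
  HypH c (Ideal.span (Set.range fun j => ∑ l, C (q j l) * X l - C (d j)))

/-- JOB GEOM. The region from a sheet. -/
def SheetAt {n c : ℕ} (I : Ideal (MvPolynomial (Fin n) ℂ)) (a : Fin n → Fin c → ℚ)
    (z : Fin n → ℂ) : Prop :=
  ∃ ω : ℂ × (Fin n → ℂ) → (Fin c → ℂ), ω 0 = 0 ∧ ContinuousAt ω 0 ∧
    (∀ᶠ p in 𝓝 (0 : ℂ × (Fin n → ℂ)), DifferentiableAt ℂ ω p) ∧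
    ∀ᶠ p in 𝓝 (0 : ℂ × (Fin n → ℂ)), p.1 ≠ 0 → ∀ g ∈ I,
      eval (p.1⁻¹ • (fun l => z l + p.2 l + ∑ j, ω p j * ((a l j : ℚ) : ℂ) : Fin n → ℂ)) g = 0

/-- JOB LOW. A lower bound for `R` from a polynomial constant in the directions `a_k`.
Proof. The columns of `a` are independent over `ℚ`, so also over `ℂ`. Let `L : ℂ^n → ℂ^(n-c)` be a surjective linear map with
kernel spanned by the `a_k`, `p_i` the corresponding linear forms (polynomials). (a) The classes of the `p_i` in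
`ℂ[x]/I` are algebraically independent: if `g(p) ∈ I` then at the points of the sheet (fixed small `ε ≠ 0`,
variable `m`) `g(ε⁻¹ (L z + L m)) = 0` for all `m` near `0`; `L` is open, so `g` vanishes on an open set, `g = 0`. (b) As
`trdeg (ℂ[x]/I) ≤ n - c` they are a transcendence basis (`AlgebraicIndependent.isTranscendenceBasis_of_trdeg_le_of_finite`), so the class of
`R`, which is not zero, is algebraic over the subalgebra generated by them, and divides a nonzero element of it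
(`IsAlgebraic.exists_nonzero_dvd`): there are `ρ ≠ 0` and `β` with `ρ(p) - β R ∈ I`. `ρ' = ρ(p)` is not zero and
`ρ'(x + ∑ t_k a_k) = ρ'(x)`. -/
def S_low : Prop := ∀ (n c : ℕ) (I : Ideal (MvPolynomial (Fin n) ℂ)) (a : Fin n → Fin c → ℚ)
  (z : Fin n → ℂ), I.IsPrime →
  Algebra.trdeg ℂ (MvPolynomial (Fin n) ℂ ⧸ I) + (c : Cardinal) ≤ (n : Cardinal) →
  LinearIndependent ℚ (fun (k : Fin c) (l : Fin n) => a l k) → SheetAt I a z →
  ∀ R : MvPolynomial (Fin n) ℂ, R ∉ I → ∃ ρ β : MvPolynomial (Fin n) ℂ, ρ ≠ 0 ∧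
    ρ - β * R ∈ I ∧ ∀ (x : Fin n → ℂ) (t : Fin c → ℂ),
      eval (fun l => x l + ∑ j, t j * ((a l j : ℚ) : ℂ)) ρ = eval x ρ

/-- `H(t, x)` is not identically zero on the product of `ℂ^c` and the variety of `I` -/
def NZ {n c : ℕ} (I : Ideal (MvPolynomial (Fin n) ℂ)) (H : MvPolynomial (Fin c ⊕ Fin n) ℂ) :
    Prop := ∃ α, cf H α ∉ I

/-- JOB FAM2. The system `x ∈ X`, `e^{x_j} = A_j(t, x) / B_j(t, x)` (`j ≤ n`) in the unknowns
`x ∈ ℂ^n`, `t ∈ ℂ^c`. (Compare `Pool.Agent.Q72.EG.fixed` and the lemmas before it, `Q72/EG/Fam.lean`.)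
Proof (uses S_ff). The ideal `J` of the `H` with `¬ NZ I H` is prime (`ℂ[t, x]/J = (ℂ[x]/I)[t]`), let `E` be its function field
(`Pool.Agent.W333.ECV.exists_field`), `ξ = (t, x)` the generic point, `y_j = A_j/B_j`. The kernel of `aeval x` is `I`. `E` is generated by
`K0 = ℂ(x)` and `t_1, …, t_c`, so it has transcendence degree at most `c` over `K0`. The `y_{i_j}`, `j ≤ c`, are
algebraically independent over `K0`, because the Jacobian determinant `det (∂y_{i_j}/∂t_k)` is not zero in `E` (if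
there was a polynomial relation over `K0`, take one of minimal degree and differentiate: the vector of its
partial derivatives at the point `(y_{i_j})` is in the kernel of the transposed matrix, so all partial derivatives vanish at
this point, and by minimality they are zero polynomials, characteristic zero; compare `EG.alg_deriv`; `E = Frac K0[t]`, the `t_k` are
algebraically independent over `K0`). So all elements of `E` are algebraic over `K0(y_{i_1}, …, y_{i_c})`. Apply S_ff with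
`γ = 1` and the polynomial `H` of `EG.lift_pt` (for `f = (t_1, …, t_c, 1/(G ∏ B_j))`). -/
def S_fam : Prop := ∀ (n c : ℕ) (I : Ideal (MvPolynomial (Fin n) ℂ)), I.IsPrime →
  Algebra.trdeg ℂ (MvPolynomial (Fin n) ℂ ⧸ I) + (c : Cardinal) ≤ (n : Cardinal) →
  HypH c I → ∀ A B : Fin n → MvPolynomial (Fin c ⊕ Fin n) ℂ, (∀ j, NZ I (A j)) →
  (∀ j, NZ I (B j)) → ∀ i : Fin c → Fin n,
  NZ I (Matrix.det (Matrix.of fun j k : Fin c =>
    pderiv (Sum.inl k) (A (i j)) * B (i j) - A (i j) * pderiv (Sum.inl k) (B (i j)))) →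
  ∀ G : MvPolynomial (Fin c ⊕ Fin n) ℂ, NZ I G →
  ∃ (x : Fin n → ℂ) (t : Fin c → ℂ), (∀ g ∈ I, eval x g = 0) ∧ eval (Sum.elim t x) G ≠ 0 ∧
    ∀ j, eval (Sum.elim t x) (B j) ≠ 0 ∧
      Complex.exp (x j) * eval (Sum.elim t x) (B j) = eval (Sum.elim t x) (A j)

/-- JOB FAME. Families of such systems with entire coefficients.
Proof (uses S_fam). If `Φ(s) = ∑ f_k(s) a_k` (`EG.Ent`) with `NZ I (Φ s0)` then `{s : ¬ NZ I (Φ s)}` is countable: for some `α` the
polynomial `cf (Φ s0) α` is not in `I`, take a linear form `ℓ` on `ℂ[x]` which vanishes on `I` and not at this polynomial; then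
`s ↦ ℓ (cf (Φ s) α) = ∑ f_k(s) ℓ(cf a_k α)` is entire and not zero at `s0`, so it has countably many zeros. Apply this to the `A_j`, the
`B_j` and the determinant (`Ent` is closed under sums, products, `pderiv`; determinants are sums of products), then S_fam. -/
def S_fame : Prop := ∀ (n c : ℕ) (I : Ideal (MvPolynomial (Fin n) ℂ)), I.IsPrime →
  Algebra.trdeg ℂ (MvPolynomial (Fin n) ℂ ⧸ I) + (c : Cardinal) ≤ (n : Cardinal) →
  HypH c I → ∀ (K : ℕ) (f g : Fin n → Fin K → ℂ → ℂ), (∀ j k, Differentiable ℂ (f j k)) →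
  (∀ j k, Differentiable ℂ (g j k)) →
  ∀ (a b : Fin n → Fin K → MvPolynomial (Fin c ⊕ Fin n) ℂ) (A B : Fin n → ℂ →
    MvPolynomial (Fin c ⊕ Fin n) ℂ), (∀ j s, A j s = ∑ k, C (f j k s) * a j k) →
  (∀ j s, B j s = ∑ k, C (g j k s) * b j k) → ∀ s0 : ℂ, (∀ j, NZ I (A j s0)) →
  (∀ j, NZ I (B j s0)) → ∀ i : Fin c → Fin n,
  NZ I (Matrix.det (Matrix.of fun j k : Fin c => pderiv (Sum.inl k) (A (i j) s0) * B (i j) s0 -
    A (i j) s0 * pderiv (Sum.inl k) (B (i j) s0))) →
  ∃ Z : Set ℂ, Z.Countable ∧ ∀ s, s ∉ Z → ∀ G : MvPolynomial (Fin c ⊕ Fin n) ℂ, NZ I G →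
    ∃ (x : Fin n → ℂ) (t : Fin c → ℂ), (∀ g ∈ I, eval x g = 0) ∧ eval (Sum.elim t x) G ≠ 0 ∧
      ∀ j, eval (Sum.elim t x) (B j s) ≠ 0 ∧
        Complex.exp (x j) = eval (Sum.elim t x) (A j s) / eval (Sum.elim t x) (B j s)

end Pool.Agent.Q72.EL
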