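import Pool.Agent.Q72.EL.Sheet
import Pool.Agent.Q72.EL.Stm2

/-!
Project EL (helper72): lemmas for the construction of regions.
-/

set_option autoImplicit false

namespace Pool.Agent.Q72.EL

open MvPolynomial Filter Topology Metric

theorem sheetAt_of_good {n c : ℕ} {I : Ideal (MvPolynomial (Fin n) ℂ)} {a : Fin n → Fin c → ℚ}
    {z : Fin n → ℂ} (h : Good I a z) : SheetAt I a z := sheet h

/-- the `a_k` are independent if there is a good point -/
theorem ind_of_good {n c : ℕ} {I : Ideal (MvPolynomial (Fin n) ℂ)} {a : Fin n → Fin c → ℚ}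
    {z : Fin n → ℂ} (h : Good I a z) :
    LinearIndependent ℚ (fun (k : Fin c) (l : Fin n) => a l k) := by
  obtain ⟨P, Q, hP, hQ, hz, hdet, hQz⟩ := h
  rw [Fintype.linearIndependent_iff]
  intro t ht
  have h1 : (Matrix.of fun j k : Fin c =>
      ∑ l, ((a l k : ℚ) : ℂ) * eval z (pderiv l (top (P j)))).mulVec
        (fun k => ((t k : ℚ) : ℂ)) = 0 := by
    funext j
    simp only [Matrix.mulVec, dotProduct, Matrix.of_apply, Finset.sum_mul, Pi.zero_apply]
    rw [Finset.sum_comm]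
    refine Finset.sum_eq_zero fun l _ => ?_
    have h2 := congrFun ht l
    simp only [Finset.sum_apply, Pi.smul_apply, smul_eq_mul, Pi.zero_apply] at h2
    have h3 : ∑ k, ((t k : ℚ) : ℂ) * ((a l k : ℚ) : ℂ) = 0 := by exact_mod_cast h2
    calc ∑ k, ((a l k : ℚ) : ℂ) * eval z (pderiv l (top (P j))) * ((t k : ℚ) : ℂ)
        = (∑ k, ((t k : ℚ) : ℂ) * ((a l k : ℚ) : ℂ)) * eval z (pderiv l (top (P j))) := by
          rw [Finset.sum_mul]
          exact Finset.sum_congr rfl fun k _ => by ring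
      _ = 0 := by rw [h3, zero_mul]
  have h4 := Matrix.eq_zero_of_mulVec_eq_zero hdet h1
  intro k
  have := congrFun h4 k
  simpa using this

/-- a nonzero polynomial does not vanish on an open set of `i ℝ^n` -/
theorem dense_imag {n : ℕ} {F : MvPolynomial (Fin n) ℂ} (hF : F ≠ 0) (κ : Fin n → ℝ) {ε : ℝ}
    (hε : 0 < ε) : ∃ κ' : Fin n → ℝ, (∀ l, |κ' l - κ l| < ε) ∧
      eval (fun l => -(Complex.I * (κ' l : ℂ))) F ≠ 0 := by
  by_contra hcon
  push Not at hcon
  apply hF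
  refine MvPolynomial.funext_set (fun l => (fun t : ℝ => -(Complex.I * (t : ℂ))) ''
    Set.Ioo (κ l - ε) (κ l + ε)) (fun l => ?_) ?_
  · refine Set.Infinite.image ?_ (Set.Ioo_infinite (by linarith))
    intro s _ t _ hst
    simpa using hst
  · intro x hx
    rw [map_zero]
    have h1 : ∀ l, ∃ t : ℝ, t ∈ Set.Ioo (κ l - ε) (κ l + ε) ∧ -(Complex.I * (t : ℂ)) = x l :=
      fun l => hx l (Set.mem_univ l)
    choose t ht htx using h1
    have h2 : x = fun l => -(Complex.I * (t l : ℂ)) := funext fun l => (htx l).symm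
    rw [h2]
    refine hcon t fun l => ?_
    rw [abs_lt]
    constructor <;> [have := (ht l).1; have := (ht l).2] <;> linarith

/-- lower bound of a polynomial in a cone where the leading form does not vanish -/
theorem low_bound {n : ℕ} {F : MvPolynomial (Fin n) ℂ} {κ : Fin n → ℂ}
    (h : eval κ (top F) ≠ 0) : ∃ δ : ℝ, 0 < δ ∧ ∃ T₀ : ℝ, ∀ T : ℝ, T₀ ≤ T →
      ∀ u : Fin n → ℂ, ‖u - (fun l => (T : ℂ) * κ l)‖ ≤ δ * T → T⁻¹ ≤ ‖eval u F‖ := by
  have h0 : hg F (0, κ) ≠ 0 := by rw [hg_zero]; exact h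
  have hc : ContinuousAt (fun p => ‖hg F p‖) ((0 : ℂ), κ) :=
    ((hg_contDiff F).continuous.norm).continuousAt
  have hpos : 0 < ‖hg F (0, κ)‖ := norm_pos_iff.2 h0
  have hev : ∀ᶠ p in 𝓝 ((0 : ℂ), κ), ‖hg F (0, κ)‖ / 2 < ‖hg F p‖ :=
    hc.eventually_const_lt (by linarith)
  obtain ⟨r, hr, hball⟩ := Metric.eventually_nhds_iff_ball.1 hev
  refine ⟨r / 2, by positivity, max (max 1 (2 / r)) (2 / ‖hg F (0, κ)‖), fun T hT u hu => ?_⟩
  have hT1 : 1 ≤ T := (le_max_left _ _).trans ((le_max_left _ _).trans hT)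
  have hT2 : 2 / r ≤ T := (le_max_right _ _).trans ((le_max_left _ _).trans hT)
  have hT3 : 2 / ‖hg F (0, κ)‖ ≤ T := (le_max_right _ _).trans hT
  have hT0 : 0 < T := by linarith
  have hTc : ((T : ℂ)) ≠ 0 := by exact_mod_cast hT0.ne'
  set ζ : Fin n → ℂ := ((T : ℂ)⁻¹) • u with hζ
  have hmem : (((T : ℂ)⁻¹, ζ) : ℂ × (Fin n → ℂ)) ∈ ball ((0 : ℂ), κ) r := by
    rw [mem_ball, Prod.dist_eq, max_lt_iff]
    constructor
    · rw [dist_zero_right, norm_inv, Complex.norm_real, Real.norm_of_nonneg hT0.le]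
      have : T⁻¹ ≤ r / 2 := by
        rw [inv_le_comm₀ hT0 (by positivity)]
        calc (r / 2)⁻¹ = 2 / r := by rw [inv_div]
          _ ≤ T := hT2
      linarith
    · rw [dist_eq_norm]
      have h1 : ζ - κ = ((T : ℂ)⁻¹) • (u - (fun l => (T : ℂ) * κ l)) := by
        funext l
        simp only [hζ, Pi.sub_apply, Pi.smul_apply, smul_eq_mul]
        field_simp
      rw [h1, norm_smul, norm_inv, Complex.norm_real, Real.norm_of_nonneg hT0.le]
      calc T⁻¹ * ‖u - (fun l => (T : ℂ) * κ l)‖ ≤ T⁻¹ * (r / 2 * T) := by gcongr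
        _ = r / 2 := by field_simp
        _ < r := by linarith
  have h2 := hball _ hmem
  rw [hg_ne F (inv_ne_zero hTc)] at h2
  have h3 : ((T : ℂ)⁻¹)⁻¹ • ζ = u := by
    rw [hζ, inv_inv, smul_smul, mul_inv_cancel₀ hTc, one_smul]
  rw [h3, norm_mul, norm_pow, norm_inv, Complex.norm_real, Real.norm_of_nonneg hT0.le] at h2
  have h4 : T⁻¹ ^ F.totalDegree ≤ 1 := pow_le_one₀ (by positivity) (inv_le_one_of_one_le₀ hT1)
  have h5 : T⁻¹ ^ F.totalDegree * ‖eval u F‖ ≤ ‖eval u F‖ := by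
    have := mul_le_mul_of_nonneg_right h4 (norm_nonneg (eval u F))
    simpa using this
  have h6 : T⁻¹ ≤ ‖hg F (0, κ)‖ / 2 := by
    rw [inv_le_comm₀ hT0 (by positivity)]
    calc (‖hg F (0, κ)‖ / 2)⁻¹ = 2 / ‖hg F (0, κ)‖ := by rw [inv_div]
      _ ≤ T := hT3
  linarith

theorem top_ne_zero {n : ℕ} {F : MvPolynomial (Fin n) ℂ} (hF : F ≠ 0) : top F ≠ 0 := by
  intro h
  apply hF
  rw [← MvPolynomial.support_eq_empty]
  by_contra hs
  obtain ⟨m, hm, hdeg⟩ := Finset.exists_mem_eq_sup F.support (Finset.nonempty_iff_ne_empty.2 hs)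
    (fun m => m.sum fun _ e => e)
  have h1 : coeff m (top F) = 0 := by rw [h, coeff_zero]
  unfold top at h1
  rw [coeff_homogeneousComponent] at h1
  have h2 : m.degree = F.totalDegree := by
    rw [MvPolynomial.totalDegree, hdeg]
    rfl
  rw [if_pos h2] at h1
  exact (mem_support_iff.1 hm) h1

end Pool.Agent.Q72.EL
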