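import Pool.Agent.Q72.EL.Hom

/-!
Project EL (helper72): holomorphic pieces of a variety near infinity, from a good point.
-/

set_option autoImplicit false

namespace Pool.Agent.Q72.EL

open MvPolynomial Filter Topology Metric

theorem sheet {n c : ℕ} {I : Ideal (MvPolynomial (Fin n) ℂ)} {a : Fin n → Fin c → ℚ}
    {z : Fin n → ℂ} (h : Good I a z) :
    ∃ ω : ℂ × (Fin n → ℂ) → (Fin c → ℂ), ω 0 = 0 ∧ ContinuousAt ω 0 ∧
      (∀ᶠ p in 𝓝 (0 : ℂ × (Fin n → ℂ)), DifferentiableAt ℂ ω p) ∧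
      ∀ᶠ p in 𝓝 (0 : ℂ × (Fin n → ℂ)), p.1 ≠ 0 → ∀ g ∈ I,
        eval (p.1⁻¹ • pt a z p.2 (ω p)) g = 0 := by
  obtain ⟨P, Q, hP, hQ, hz, hdet, hQz⟩ := h
  set Φ : (ℂ × (Fin n → ℂ)) × (Fin c → ℂ) → (Fin c → ℂ) :=
    fun q j => hg (P j) (q.1.1, pt a z q.1.2 q.2) with hΦ
  have hpt : ContDiff ℂ 1 (fun q : (ℂ × (Fin n → ℂ)) × (Fin c → ℂ) =>
      (q.1.1, pt a z q.1.2 q.2)) := by
    refine (contDiff_fst.comp contDiff_fst).prodMk ?_
    exact (pt_contDiff a z).comp ((contDiff_snd.comp contDiff_fst).prodMk contDiff_snd)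
  have hΦc : ContDiff ℂ 1 Φ := contDiff_pi.mpr fun j => (hg_contDiff (P j)).comp hpt
  have hz0 : pt a z 0 0 = z := by
    funext l
    simp [pt]
  have hΦ0 : Φ 0 = 0 := by
    funext j
    simp only [hΦ]
    change hg (P j) (0, pt a z 0 0) = 0
    rw [hz0, hg_zero, hz j]
  -- the derivative in the second variable
  have hder : ∀ v, (fderiv ℂ Φ 0 ∘L .inr ℂ (ℂ × (Fin n → ℂ)) (Fin c → ℂ)) v =
      (Matrix.of fun j k : Fin c =>
        ∑ l, ((a l k : ℚ) : ℂ) * eval z (pderiv l (top (P j)))).mulVec v := by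
    have h1 : HasFDerivAt Φ (fderiv ℂ Φ 0) 0 :=
      (hΦc.differentiable (by norm_num)).differentiableAt.hasFDerivAt
    have h2 : HasFDerivAt (fun w : Fin c → ℂ => Φ ((0 : ℂ × (Fin n → ℂ)), w))
        (fderiv ℂ Φ 0 ∘L .inr ℂ (ℂ × (Fin n → ℂ)) (Fin c → ℂ)) 0 := by
      have h3 : HasFDerivAt (fun w : Fin c → ℂ => ((0 : ℂ × (Fin n → ℂ)), w))
          (.inr ℂ (ℂ × (Fin n → ℂ)) (Fin c → ℂ)) 0 :=
        hasFDerivAt_prodMk_right 0 0
      exact HasFDerivAt.comp (g := Φ) 0 h1 h3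
    intro v
    funext j
    obtain ⟨L, hL, hL'⟩ := hasStrictFDerivAt_eval (top (P j)) z
    have h4 : HasFDerivAt (fun w : Fin c → ℂ => pt a z 0 w)
        (ContinuousLinearMap.pi fun l => ∑ k : Fin c, ((a l k : ℚ) : ℂ) •
          (ContinuousLinearMap.proj (R := ℂ) (φ := fun _ : Fin c => ℂ) k)) 0 := by
      refine hasFDerivAt_pi.mpr fun l => ?_
      unfold pt
      refine HasFDerivAt.const_add _ ?_
      refine HasFDerivAt.fun_sum fun k _ => ?_
      have := ((ContinuousLinearMap.proj (R := ℂ) (φ := fun _ : Fin c => ℂ)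
        k).hasFDerivAt (x := (0 : Fin c → ℂ))).mul_const (((a l k : ℚ) : ℂ))
      exact this
    have hL'' : HasFDerivAt (fun x : Fin n → ℂ => eval x (top (P j))) L (pt a z 0 0) := by
      rw [hz0]
      exact hL'.hasFDerivAt
    have h5 := HasFDerivAt.comp (g := fun x : Fin n → ℂ => eval x (top (P j))) 0 hL'' h4
    have h6 : ((fun x : Fin n → ℂ => eval x (top (P j))) ∘ fun w : Fin c → ℂ => pt a z 0 w) =
        fun w => Φ ((0 : ℂ × (Fin n → ℂ)), w) j := by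
      funext w
      simp only [hΦ, Function.comp]
      change _ = hg (P j) (0, pt a z 0 w)
      rw [hg_zero]
    rw [h6] at h5
    have h7 := (hasFDerivAt_pi'.mp h2) j
    have h8 := h7.unique h5
    have h9 := congrArg (fun M => M v) h8
    change (fderiv ℂ Φ 0 ∘L .inr ℂ (ℂ × (Fin n → ℂ)) (Fin c → ℂ)) v j = _ at h9
    rw [h9]
    have hv : ∀ l : Fin n, (ContinuousLinearMap.pi fun l => ∑ k : Fin c, ((a l k : ℚ) : ℂ) •
          (ContinuousLinearMap.proj (R := ℂ) (φ := fun _ : Fin c => ℂ) k)) v l =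
        ∑ k, ((a l k : ℚ) : ℂ) * v k := by
      intro l
      change (∑ k : Fin c, ((a l k : ℚ) : ℂ) •
          (ContinuousLinearMap.proj (R := ℂ) (φ := fun _ : Fin c => ℂ) k)) v = _
      rw [_root_.sum_apply]
      rfl
    change L ((ContinuousLinearMap.pi fun l => ∑ k : Fin c, ((a l k : ℚ) : ℂ) •
          (ContinuousLinearMap.proj (R := ℂ) (φ := fun _ : Fin c => ℂ) k)) v) = _
    rw [hL]
    simp only [hv, Matrix.mulVec, dotProduct, Matrix.of_apply, Finset.sum_mul]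
    rw [Finset.sum_comm]
    refine Finset.sum_congr rfl fun k _ => Finset.sum_congr rfl fun l _ => ?_
    ring
  have hinv : (fderiv ℂ Φ 0 ∘L .inr ℂ (ℂ × (Fin n → ℂ)) (Fin c → ℂ)).IsInvertible := by
    have hinj : Function.Injective
        (fderiv ℂ Φ 0 ∘L .inr ℂ (ℂ × (Fin n → ℂ)) (Fin c → ℂ)) := by
      intro v w hvw
      rw [hder, hder] at hvw
      exact Matrix.mulVec_injective_iff_isUnit.mpr
        ((Matrix.isUnit_iff_isUnit_det _).mpr (isUnit_iff_ne_zero.mpr hdet)) hvw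
    exact ⟨(LinearEquiv.ofInjectiveEndo
      (fderiv ℂ Φ 0 ∘L .inr ℂ (ℂ × (Fin n → ℂ)) (Fin c → ℂ)).toLinearMap
        hinj).toContinuousLinearEquiv, by ext v; rfl⟩
  have hcd : ContDiffAt ℂ 1 Φ (0 : (ℂ × (Fin n → ℂ)) × (Fin c → ℂ)) := hΦc.contDiffAt
  set ω := hcd.implicitFunction one_ne_zero hinv with hω
  have hω0 : ω 0 = 0 := hcd.implicitFunction_apply_self one_ne_zero hinv
  have hωc : ContDiffAt ℂ 1 ω 0 := hcd.contDiffAt_implicitFunction one_ne_zero hinv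
  have hωe : ∀ᶠ p in 𝓝 (0 : ℂ × (Fin n → ℂ)), Φ (p, ω p) = Φ 0 :=
    hcd.eventually_apply_implicitFunction one_ne_zero hinv
  refine ⟨ω, hω0, hωc.continuousAt, ?_, ?_⟩
  · filter_upwards [hωc.eventually (by simp)] with p hp
    exact hp.differentiableAt (by norm_num)
  · have hQc : ContinuousAt (fun p : ℂ × (Fin n → ℂ) => hg Q (p.1, pt a z p.2 (ω p))) 0 := by
      have h1 : ContinuousAt (fun p : ℂ × (Fin n → ℂ) => (p, ω p)) 0 :=
        continuousAt_id.prodMk hωc.continuousAt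
      exact ContinuousAt.comp (g := fun q : (ℂ × (Fin n → ℂ)) × (Fin c → ℂ) =>
        hg Q (q.1.1, pt a z q.1.2 q.2)) ((hg_contDiff Q).comp hpt).continuous.continuousAt h1
    have hQ0 : hg Q ((0 : ℂ × (Fin n → ℂ)).1, pt a z (0 : ℂ × (Fin n → ℂ)).2 (ω 0)) ≠ 0 := by
      rw [hω0]
      change hg Q (0, pt a z 0 0) ≠ 0
      rw [hz0, hg_zero]
      exact hQz
    filter_upwards [hωe, hQc.eventually_ne hQ0] with p hp hp' hp0 g hg'
    have h1 : ∀ j, eval (p.1⁻¹ • pt a z p.2 (ω p)) (P j) = 0 := by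
      intro j
      have h2 := congrFun hp j
      rw [hΦ0] at h2
      simp only [hΦ, Pi.zero_apply] at h2
      rw [hg_ne (P j) hp0] at h2
      exact (mul_eq_zero.mp h2).resolve_left (pow_ne_zero _ hp0)
    have h3 : eval (p.1⁻¹ • pt a z p.2 (ω p)) Q ≠ 0 := by
      intro h4
      rw [hg_ne Q hp0, h4, mul_zero] at hp'
      exact hp' rfl
    have h5 : ∀ f ∈ Ideal.span (Set.range P), eval (p.1⁻¹ • pt a z p.2 (ω p)) f = 0 := by
      intro f hf
      have : Ideal.span (Set.range P) ≤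
          RingHom.ker (eval (p.1⁻¹ • pt a z p.2 (ω p)) : MvPolynomial (Fin n) ℂ →+* ℂ) := by
        rw [Ideal.span_le]
        rintro _ ⟨j, rfl⟩
        exact RingHom.mem_ker.mpr (h1 j)
      exact RingHom.mem_ker.mp (this hf)
    have h6 := h5 _ (hQ g hg')
    rw [map_mul] at h6
    exact (mul_eq_zero.mp h6).resolve_left h3

end Pool.Agent.Q72.EL
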