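import Pool.Agent.Q72.EL.Def
import Pool.Agent.Q72.EG.Stm2

/-!
Project EL (helper72): exponential points on varieties `V ⊆ ℂ^n × (ℂ^*)^n` of dimension `n` whose
projection to `ℂ^n` has dimension `n - c`.  Statements, with complete proofs in the docstrings.
All of them are versions for several variables `Y_1, …, Y_c` (with independent weights `λ_j`) of the
statements of project EG (`Pool.Agent.Q72.EG.Stm`), where `c = 1`; the proofs there can be adapted.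

Basic fact used everywhere: if `τ` is a nonzero rational vector then `τ · λ ≠ 0`, and at admissible points
`∑ τ_j log ‖Y_j‖ = - T (τ · λ) + O(|τ| T / K)`. So for `τ` in a finite set of nonzero rational vectors
there are `δ > 0`, `K₀` such that `|∑ τ_j log ‖Y_j‖| ≥ δ T` (with the sign of `- τ · λ`) if `K ≥ K₀`, and `δ T` is larger than
any given multiple of `log T` for large `T`.
-/

set_option autoImplicit false

namespace Pool.Agent.Q72.EL

open MvPolynomial Filter Topology Metric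

/-- JOB DOM2. Domination. (Compare `Pool.Agent.Q206.EG.dom`.)
Proof. `F = {α : cf H α ∉ I}` is finite and not empty; let `α₀` be its element with the smallest `α · λ` (different
`α` have different values, as `λ` is `ℚ`-independent), `R = cf H α₀`. At an admissible point (for a multiple `R'` of `R`) the
other coefficients `cf H α`, `α ∉ F`, vanish, those in `F` are at most `T^D1`, `‖R(x)‖ ≥ T^(-D2)`, and
`‖Y^α‖ / ‖Y^α₀‖ = exp(∑ (α - α₀)_j log ‖Y_j‖) ≤ exp(- δ T)` for `α ≠ α₀` in `F`. For large `T` the term of `α₀` is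
larger than the sum of the others. -/
def S_dom : Prop := ∀ (n c : ℕ) (I : Ideal (MvPolynomial (Fin n) ℂ)) (lam : Fin c → ℝ)
  (H : MvPolynomial (Fin c ⊕ Fin n) ℂ), I.IsPrime → LinearIndependent ℚ lam → (∃ α, cf H α ∉ I) →
  ∃ R : MvPolynomial (Fin n) ℂ, R ∉ I ∧ ∀ R', R ∣ R' → ∀ D : ℝ, ∃ K : ℝ, 1 ≤ K ∧
    ∀ T : ℝ, K ≤ T → ∀ x Y, Adm I lam R' D K T x Y → eval (Sum.elim Y x) H ≠ 0

/-- JOB SLOPE2. The roots of `A(Y, x, Z)` over admissible points have sizes close to `∏ |Y_j|^σ_j`, with `σ` in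
a finite set of rational vectors. (Compare `Pool.Agent.Q206.EG.slope`.)
Proof. `F = {(b, α) : cf (A.coeff b) α ∉ I}` (finite, not empty), `R` the product of these coefficients (`I` is prime),
`S = {-(α - α') / (b - b') : (b, α), (b', α') ∈ F, b ≠ b'}`. At an admissible point `∑_F a_{bα}(x) Y^α Z^b = 0`, the
coefficients are between `T^(-D1)` and `T^D1`. Two terms have sizes which differ at most by the factor `#F`
(`Pool.Agent.Q206.EG.two_terms`): `|(b - b') log ‖Z‖ + ∑ (α - α')_j log ‖Y_j‖| ≤ 2 D1 log T + log #F`. If `b = b'` then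
`α ≠ α'` and the left hand side is at least `δ T`, a contradiction for `T ≥ K`, `K` large. Divide by `b - b'`. -/
def S_slope : Prop := ∀ (n c : ℕ) (I : Ideal (MvPolynomial (Fin n) ℂ)) (lam : Fin c → ℝ)
  (A : Polynomial (MvPolynomial (Fin c ⊕ Fin n) ℂ)), I.IsPrime → LinearIndependent ℚ lam →
  (∃ b α, cf (A.coeff b) α ∉ I) →
  ∃ (R : MvPolynomial (Fin n) ℂ) (S : Finset (Fin c → ℚ)), R ∉ I ∧ ∀ R', R ∣ R' → ∀ D : ℝ,
    ∃ D' K : ℝ, 1 ≤ K ∧ ∀ T : ℝ, K ≤ T → ∀ x Y, Adm I lam R' D K T x Y →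
      ∀ Z : ℂ, Z ≠ 0 → (A.map (eval (Sum.elim Y x))).eval Z = 0 →
        ∃ σ ∈ S, |Real.log ‖Z‖ - ∑ j, ((σ j : ℚ) : ℝ) * Real.log ‖Y j‖| ≤ D' * Real.log T

/-- JOB NEWT2. Existence of a root with a prescribed slope of the Newton polygon. (Compare
`Pool.Agent.Q206.EG.newt`; `S_ann` is `Pool.Agent.Q206.EG.ann`.)
Proof. `F`, `a_{bα}`, `R = ∏_F a_{bα}` as in S_slope. As `(α₁ + b₁ r) · λ = (α₂ + b₂ r) · λ` and `λ` is independent,
`α₁ + b₁ r = α₂ + b₂ r = μ` (a rational vector). Let `ρ = ∏ ‖Y_j‖^(r_j) > 0`, `‖Y‖^μ = ∏ ‖Y_j‖^(μ_j)`,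
`q(ζ) = ‖Y‖^(-μ) A(Y, x, ρ ζ)`. Its coefficient in degree `b` is `‖Y‖^(-μ) ρ^b ∑_{α : (b,α) ∈ F} a_{bα}(x) Y^α`, where
`‖Y‖^(-μ) ρ^b ‖Y^α‖ = exp(∑ (α + b r - μ)_j log ‖Y_j‖)` is `1` if `α + b r = μ` and at most `exp(- δ T)` otherwise. So all
coefficients are at most `T^D2`, and those in degree `b₁`, `b₂` are at least `T^(-D1) - T^D2 exp(-δ T) ≥ T^(-D1)/2` (for
given `b` there is only one `α` with `α + b r = μ`). S_ann with `M = T^D3` gives a root `ζ` with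
`|log ‖ζ‖| ≤ D' log T`, `Z = ρ ζ`. -/
def S_newt : Prop := ∀ (n c : ℕ) (I : Ideal (MvPolynomial (Fin n) ℂ)) (lam : Fin c → ℝ)
  (A : Polynomial (MvPolynomial (Fin c ⊕ Fin n) ℂ)) (r : Fin c → ℚ) (b₁ b₂ : ℕ)
  (α₁ α₂ : Fin c →₀ ℕ), I.IsPrime → LinearIndependent ℚ lam → b₁ ≠ b₂ →
  cf (A.coeff b₁) α₁ ∉ I → cf (A.coeff b₂) α₂ ∉ I →
  (∀ b α, cf (A.coeff b) α ∉ I →
    ∑ j, ((α₁ j : ℝ) + b₁ * ((r j : ℚ) : ℝ)) * lam j ≤
      ∑ j, ((α j : ℝ) + b * ((r j : ℚ) : ℝ)) * lam j ∧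
    ∑ j, ((α₂ j : ℝ) + b₂ * ((r j : ℚ) : ℝ)) * lam j ≤
      ∑ j, ((α j : ℝ) + b * ((r j : ℚ) : ℝ)) * lam j) →
  ∃ R : MvPolynomial (Fin n) ℂ, R ∉ I ∧ ∀ R', R ∣ R' → ∀ D : ℝ,
    ∃ D' K : ℝ, 1 ≤ K ∧ ∀ T : ℝ, K ≤ T → ∀ x Y, Adm I lam R' D K T x Y →
      ∃ Z : ℂ, Z ≠ 0 ∧ (A.map (eval (Sum.elim Y x))).eval Z = 0 ∧
        |Real.log ‖Z‖ - ∑ j, ((r j : ℚ) : ℝ) * Real.log ‖Y j‖| ≤ D' * Real.log T

/-- JOB VAL2. In a valuation the minimum over the terms of a vanishing sum is attained twice. (Compare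
`Pool.Agent.Q206.EG.val`.)
Proof. The `N`-th power of the valuation of the term of `e` is `v(∏ Y_j^(N e.1_j + e.2 p_j))`, and `v(Y^β) < v(Y^β')` if
`β · λ > β' · λ` (`hmon` for `β - β'`). Let `e₁` be an element of `F` with minimal `(N e.1 + e.2 p) · λ`. If the minimum was attained
only at `e₁`, the term of `e₁` would have a strictly larger valuation than all others, and the sum would not be zero. So it is
attained at some `e₂ ≠ e₁`; as `λ` is independent, `N e₁.1 + e₁.2 p = N e₂.1 + e₂.2 p`, and if `e₁.2 = e₂.2` then also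
`e₁.1 = e₂.1`. -/
def S_val : Prop := ∀ (c : ℕ) (E : Type) [Field E] (O : ValuationSubring E) (lam : Fin c → ℝ)
  (F : Finset ((Fin c →₀ ℕ) × ℕ)) (C : (Fin c →₀ ℕ) × ℕ → E) (Y : Fin c → E) (Z : E) (N : ℕ)
  (p : Fin c → ℤ), LinearIndependent ℚ lam → F.Nonempty → (∀ e ∈ F, O.valuation (C e) = 1) →
  (∀ j, Y j ≠ 0) → Z ≠ 0 →
  (∀ α : Fin c → ℤ, 0 < ∑ j, (α j : ℝ) * lam j → O.valuation (∏ j, Y j ^ α j) < 1) →
  0 < N → O.valuation Z ^ N = O.valuation (∏ j, Y j ^ p j) →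
  ∑ e ∈ F, C e * (∏ j, Y j ^ e.1 j) * Z ^ e.2 = 0 →
  ∃ e₁ ∈ F, ∃ e₂ ∈ F, e₁.2 ≠ e₂.2 ∧ ∀ e ∈ F,
    ∑ j, ((e₁.1 j : ℝ) + e₁.2 * ((p j : ℝ) / N)) * lam j ≤
      ∑ j, ((e.1 j : ℝ) + e.2 * ((p j : ℝ) / N)) * lam j ∧
    ∑ j, ((e₂.1 j : ℝ) + e₂.2 * ((p j : ℝ) / N)) * lam j ≤
      ∑ j, ((e.1 j : ℝ) + e.2 * ((p j : ℝ) / N)) * lam j

/-- JOB LIFT2. Over every admissible point there is a point of the variety on the given end. (Compare
`Pool.Agent.Q251.EG.lift`; `EG.S_lift0` and `EG.S_sep` are used as they are, `Pool.Agent.Q166.EG.lift0`,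
`Pool.Agent.Q111.EG.sep`.)
Proof (uses S_dom, S_slope, S_newt, S_val, EG.S_lift0, EG.S_sep; `v = O.valuation`). Let `Y_j = y_{i_j}`,
`ζ = Sum.elim Y x`. The `Y_j` are algebraically independent over the field generated by `x`: if `aeval ζ A = 0` then all
`cf A α ∈ I` (otherwise the `α` with `cf A α ∉ I` and the smallest `α · λ` gives the only dominating term for `v`, by `hO`,
`hmon`). So `Sum.elim Y° x° ∈ Pt ζ` iff `∀ g ∈ I, g(x°) = 0`, and `aeval ζ H ≠ 0` implies `∃ α, cf H α ∉ I`.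
Take `κ = Fin n ⊕ Fin n ⊕ Fin 2` with the functions `y_l`, `y_l⁻¹`, `f_0 = ∏ y_l^{m_l}`, `1/H(x, y)`, all algebraic over
`ℂ(Y, x)`. (a) For every `l` there is `A_l ≠ 0` with `A_l(Y, x, y_l) = 0`, S_slope gives a finite set `Σ_l` of vectors.
(b) Choose `m` by S_sep for the finite set of the real vectors `(σ_l · λ)_l`, `σ_l ∈ Σ_l`, and the vector `(a_l · λ)_l`: if
`∑ m_l σ_l = ∑ m_l a_l` then `σ_l · λ = a_l · λ` for all `l`, so `σ_l = a_l` for all `l`.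
(c) S_lift0 for `f_0` gives `A_0, H_0`. In `∑_F a_{bα}(x) Y^α f_0^b = 0` the valuations of the coefficients are `1`,
`v(f_0)^N = v(Y^p)`, `p = ∑ m_l b_l`, so S_val gives two minimal exponents for `r = p / N = ∑ m_l a_l`, and
S_newt a root `Z` with `|log ‖Z‖ - ∑ r_j log ‖Y°_j‖| ≤ D1 log T`. (d) S_lift0 (`H_0(Y°, x°) ≠ 0` by S_dom) gives a point `p` of
`Pt (ζ, f)` with `f_0(p) = Z`. Put `y°_l = p(y_l)`. The relations `y_l y_l⁻¹ = 1`, `y_{i_j} = Y_j`,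
`H * (1/H) = 1` hold at `p`. (e) By S_slope `|log ‖y°_l‖ - ∑_j σ_lj log ‖Y°_j‖| ≤ D2 log T` with `σ_l ∈ Σ_l`; as
`∏ y°_l^{m_l} = Z` (relation), `|∑_j τ_j log ‖Y°_j‖| ≤ D3 log T` for `τ = ∑ m_l (σ_l - a_l)`, one of finitely many rational
vectors, and this is impossible for `τ ≠ 0` and `T ≥ K`, `K` large. So `τ = 0`, `σ_l = a_l`. -/
def S_lift : Prop := ∀ (n c : ℕ) (E : Type) [Field E] [Algebra ℂ E] (G : Gen n c E)
  (H : MvPolynomial (Fin n ⊕ Fin n) ℂ), aeval (Sum.elim G.x G.y) H ≠ 0 →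
  ∃ R : MvPolynomial (Fin n) ℂ, R ∉ G.I ∧ ∀ R', R ∣ R' → ∀ D : ℝ,
    ∃ D' K : ℝ, 1 ≤ K ∧ ∀ T : ℝ, K ≤ T → ∀ x Y, Adm G.I G.lam R' D K T x Y →
      ∃ y : Fin n → ℂ, Sum.elim x y ∈ EG.Pt (Sum.elim G.x G.y) ∧ (∀ l, y l ≠ 0) ∧
        (∀ j, y (G.i j) = Y j) ∧ eval (Sum.elim x y) H ≠ 0 ∧
        ∀ l, |Real.log ‖y l‖ - ∑ j, ((G.a l j : ℚ) : ℝ) * Real.log ‖Y j‖| ≤ D' * Real.log T

/-- JOB CONT2. Analytic continuation of the point over a ball of admissible points. (Compare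
`Pool.Agent.Q239.EG.cont`; `EG.S_alg` is used as it is, `Pool.Agent.Q166.EG.alg`.)
Proof as for `EG.S_cont`, with `ζ = Sum.elim Y x`, `Y_j = y_{i_j}` (see S_lift for `Pt ζ`): apply S_alg to `ζ` and the functions `y_l`,
`y_l⁻¹`, `1/H(x, y)`; by S_dom the polynomial `H_1` of S_alg does not vanish at the points
`(Y u, X u)`; `Pool.Agent.H713R3.ZA.ROOT.main` gives the holomorphic root `z(u)` of `Θ` with `z(c) = z0`, and
`y_l(u) = G_l(z(u)) / H_1`. -/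
def S_cont : Prop := ∀ (n c : ℕ) (E : Type) [Field E] [Algebra ℂ E] (G : Gen n c E)
  (H : MvPolynomial (Fin n ⊕ Fin n) ℂ), aeval (Sum.elim G.x G.y) H ≠ 0 →
  ∃ R : MvPolynomial (Fin n) ℂ, R ∉ G.I ∧ ∀ R', R ∣ R' → ∀ D : ℝ,
    ∃ K : ℝ, 1 ≤ K ∧ ∀ T : ℝ, K ≤ T → ∀ (q : Fin n → ℂ) (ρ : ℝ)
      (X : (Fin n → ℂ) → Fin n → ℂ) (Y : (Fin n → ℂ) → Fin c → ℂ), 0 < ρ →
      DifferentiableOn ℂ X (ball q ρ) → DifferentiableOn ℂ Y (ball q ρ) →
      (∀ u ∈ ball q ρ, Adm G.I G.lam R' D K T (X u) (Y u)) →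
      ∀ y0 : Fin n → ℂ, Sum.elim (X q) y0 ∈ EG.Pt (Sum.elim G.x G.y) → (∀ l, y0 l ≠ 0) →
      (∀ j, y0 (G.i j) = Y q j) → eval (Sum.elim (X q) y0) H ≠ 0 →
      ∃ y : (Fin n → ℂ) → Fin n → ℂ, DifferentiableOn ℂ y (ball q ρ) ∧ y q = y0 ∧
        ∀ u ∈ ball q ρ, Sum.elim (X u) (y u) ∈ EG.Pt (Sum.elim G.x G.y) ∧ (∀ l, y u l ≠ 0) ∧
          (∀ j, y u (G.i j) = Y u j) ∧ eval (Sum.elim (X u) (y u)) H ≠ 0

/-- JOB SLC2. The slopes are constant along continuous families. (Compare `Pool.Agent.Q210.EG.slc`.)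
Proof (uses S_slope). For every `l` there is `A_l`, not zero at `ζ = Sum.elim Y x` (so
`∃ b α, cf (A_l.coeff b) α ∉ I`, see S_lift), with `A_l(Y, x, y_l) = 0`. S_slope gives `R_l`, `S_l`; `R = ∏ R_l`. At all
`u` there is `σ ∈ S_l` with `|log ‖y u l‖ - ∑ σ_j log ‖Y u j‖| ≤ D1 log T`. For `σ ≠ σ'` in `S_l ∪ {a_l}` we have
`|∑ (σ - σ')_j log ‖Y u j‖| ≥ δ T`, so for `T ≥ K`, `K` large, `σ` is unique; the sets where it is a given element of `S_l` are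
relatively closed, so it is constant on the ball (connected), and at the centre it is `a_l`. -/
def S_slc : Prop := ∀ (n c : ℕ) (E : Type) [Field E] [Algebra ℂ E] (G : Gen n c E),
  ∃ R : MvPolynomial (Fin n) ℂ, R ∉ G.I ∧ ∀ R', R ∣ R' → ∀ D D₀ : ℝ,
    ∃ D' K : ℝ, 1 ≤ K ∧ ∀ T : ℝ, K ≤ T → ∀ (q : Fin n → ℂ) (ρ : ℝ)
      (X : (Fin n → ℂ) → Fin n → ℂ) (Y : (Fin n → ℂ) → Fin c → ℂ) (y : (Fin n → ℂ) → Fin n → ℂ),
      0 < ρ → ContinuousOn Y (ball q ρ) → ContinuousOn y (ball q ρ) →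
      (∀ u ∈ ball q ρ, Adm G.I G.lam R' D K T (X u) (Y u)) →
      (∀ u ∈ ball q ρ, Sum.elim (X u) (y u) ∈ EG.Pt (Sum.elim G.x G.y) ∧ (∀ l, y u l ≠ 0) ∧
        ∀ j, y u (G.i j) = Y u j) →
      (∀ l, |Real.log ‖y q l‖ - ∑ j, ((G.a l j : ℚ) : ℝ) * Real.log ‖Y q j‖| ≤
        D₀ * Real.log T) →
      ∀ u ∈ ball q ρ, ∀ l,
        |Real.log ‖y u l‖ - ∑ j, ((G.a l j : ℚ) : ℝ) * Real.log ‖Y u j‖| ≤ D' * Real.log T

/-- JOB SOLVE2. The core theorem. (Compare `Pool.Agent.Q239.EG.solve`; `EG.S_log`, `EG.S_bc`, `EG.S_fix` are used as they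
are.) New: the constants `γ_l`.
Proof (uses S_lift, S_cont, S_slc, EG.S_log, EG.S_bc, EG.S_fix). Let `R` be the product of the three `R`s (`I` is prime, so `R ∉ I`),
`D` the exponent of HasRegion for `R`, `D1, K1` from S_lift, `K2` from S_cont, `D3, K3` from S_slc for `D₀ = D1`
(all for `R' = R` and this `D`). Take `K ≥ K1, K2, K3`, `K ≥ 1` large, and the region for `K`: `T, M, w`, ball of centre
`q = 2πi M` and radius `ρ = K log T`. Put `X u = u + ∑ w_j(u) a_j`, `Y u j = exp(w_j u)`: all points are admissible. S_lift at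
`u = q` gives `y0`, S_cont the family `y u`, S_slc: `|log ‖y u l‖ - ∑ a_lj Re w_j(u)| ≤ D3 log T`. By S_log there is
`h_l` with `exp(h_l u) = y u l * exp(- ∑ a_lj w_j(u))`, `|Im h_l(q)| ≤ π`, `|Re h_l| ≤ |D3| log T`. By S_bc
`‖h u‖ ≤ 6 |D3| log T + 10` on the half ball; put `h'_l = h_l - log γ_l`. Then `‖h'‖ ≤ 6 |D3| log T + 10 + C_γ < K log T / 16`
if `K` is large (`T ≥ 2`). By S_fix (radius `ρ/2`) there is `u = q + h' u`. Then `z = X u` satisfies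
`γ_l exp(z_l) = γ_l exp(2πi M_l) exp(h_l u) γ_l⁻¹ exp(∑ a_lj w_j(u)) = y u l`. -/
def S_solve : Prop := ∀ (n c : ℕ) (E : Type) [Field E] [Algebra ℂ E] (G : Gen n c E)
  (H : MvPolynomial (Fin n ⊕ Fin n) ℂ), aeval (Sum.elim G.x G.y) H ≠ 0 →
  HasRegion G.I G.a G.lam → ∀ γ : Fin n → ℂ, (∀ l, γ l ≠ 0) →
  ∃ z : Fin n → ℂ, Sum.elim z (fun l => γ l * Complex.exp (z l)) ∈ EG.Pt (Sum.elim G.x G.y) ∧
    eval (Sum.elim z (fun l => γ l * Complex.exp (z l))) H ≠ 0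

/-- JOB ENDS2. Existence of ends. (Compare `Pool.Agent.Q151.EG.ends`.)
Proof. `K0 = adjoin ℂ (range x)`, `Y_j = y_{i_j}`, algebraically independent over `K0`. Let `A ⊆ E` be the subring of the
sums of `c_α Y^α`, `α ∈ ℤ^c` with `α · λ ≥ 0` (i.e. `α = 0` or `α · λ > 0`), `c_α ∈ K0`, generated by `K0` and the `Y^α` with
`α · λ > 0`, and `m` the ideal of `A` generated by the `Y^α`, `α · λ > 0`. It is a proper ideal: its elements are the
sums of `c_α Y^α` over `α` with `α · λ > 0` (multiply), and such a sum is not `1` because the `Y^α`, `α ∈ ℤ^c`, are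
linearly independent over `K0` (multiply with a monomial). The local ring of `A` at a maximal ideal which contains `m` is dominated by a
valuation ring `O` of `E` (`LocalSubring.exists_le_valuationSubring`): `K0 ⊆ O`, so `v = 1` on `K0 \ {0}`, and
`v(Y^α) < 1` if `α · λ > 0`. For every `l`: `y_l` is algebraic over `K0(Y)`, so `∑ c_{αb} Y^α y_l^b = 0` (finite sum,
`c_{αb} ∈ K0` not all zero, clear denominators), and two different terms have the same valuation (otherwise the sum is not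
zero): `v(y_l)^(b - b') = v(Y^(α' - α))`, and `b ≠ b'`, as otherwise `α ≠ α'` and `v(Y^(α' - α)) ≠ 1`. So
`v(y_l)^(N_l) = v(Y^(b_l))`; take a common `N`. -/
def S_ends : Prop := ∀ (n c : ℕ) (E : Type) [Field E] [Algebra ℂ E] (x y : Fin n → E)
  (i : Fin c → Fin n) (lam : Fin c → ℝ), (∀ l, y l ≠ 0) →
  AlgebraicIndependent (IntermediateField.adjoin ℂ (Set.range x)) (fun j => y (i j)) →
  (∀ l, IsAlgebraic (IntermediateField.adjoin ℂ (Set.range (Sum.elim (fun j => y (i j)) x)))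
    (y l)) → LinearIndependent ℚ lam →
  ∃ G : Gen n c E, G.x = x ∧ G.y = y ∧ G.i = i ∧ G.lam = lam

/-- JOB REGION2 (helper72). Regions from good points at infinity. -/
def S_region : Prop := ∀ (n c : ℕ) (I : Ideal (MvPolynomial (Fin n) ℂ)) (a : Fin n → Fin c → ℚ)
  (lam : Fin c → ℝ), I.IsPrime →
  Algebra.trdeg ℂ (MvPolynomial (Fin n) ℂ ⧸ I) + (c : Cardinal) ≤ (n : Cardinal) →
  (∀ ε : ℝ, 0 < ε → ∃ μ : Fin c → ℝ, (∀ j, |μ j - lam j| < ε) ∧ ∃ κ : Fin n → ℝ,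
    Good I a fun l => ∑ j, (μ j : ℂ) * ((a l j : ℚ) : ℂ) + Complex.I * (κ l : ℂ)) →
  HasRegion I a lam

/-- the largest number of algebraically independent `x`-coordinates on `V` is `e` -/
def ProjDim {n : ℕ} (V : Set (Fin n ⊕ Fin n → ℂ)) (e : ℕ) : Prop :=
  (∃ J : Finset (Fin n), J.card = e ∧ ∀ f : MvPolynomial (Fin n) ℂ, f.vars ⊆ J →
    (∀ p ∈ V, eval (fun l => p (Sum.inl l)) f = 0) → f = 0) ∧
  ∀ J : Finset (Fin n), J.card = e + 1 → ∃ f : MvPolynomial (Fin n) ℂ, f.vars ⊆ J ∧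
    (∀ p ∈ V, eval (fun l => p (Sum.inl l)) f = 0) ∧ f ≠ 0

/-- JOB FLD2. The function field of a variety. (Compare `Pool.Agent.Q98.EG.fld`.)
Proof. `E` = field of fractions of the coordinate ring, `x, y` the classes of the coordinates. A polynomial vanishes at
`(x, y)` iff it is in `I` iff it vanishes on `V`; `V` is the set of the points of `Pt` with nonzero `y` coordinates.
`E` has transcendence degree `n` over `ℂ` (by HasDimV, as `E` is generated by the coordinates), and `ℂ(x)`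
has transcendence degree `n - c` (ProjDim). `E` is generated over `K0 = ℂ(x)` by the `y_l`, so some of the `y_l` form a
transcendence basis of `E` over `K0`, with `c` elements by additivity: `y_{i_1}, …, y_{i_c}`. -/
def S_fld : Prop := ∀ (n c : ℕ) (I : Ideal (MvPolynomial (Fin n ⊕ Fin n) ℂ))
  (V : Set (Fin n ⊕ Fin n → ℂ)), EG.IsVar I V → EG.HasDimV V n → c ≤ n → ProjDim V (n - c) →
  ∃ (E : Type) (_ : Field E) (_ : Algebra ℂ E) (x y : Fin n → E) (i : Fin c → Fin n),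
    (∀ f, aeval (Sum.elim x y) f = 0 ↔ ∀ p ∈ V, eval p f = 0) ∧
    (∀ p, p ∈ V ↔ p ∈ EG.Pt (Sum.elim x y) ∧ ∀ j, p (Sum.inr j) ≠ 0) ∧ (∀ l, y l ≠ 0) ∧
    AlgebraicIndependent (IntermediateField.adjoin ℂ (Set.range x)) (fun j => y (i j)) ∧
    (∀ l, IsAlgebraic (IntermediateField.adjoin ℂ
      (Set.range (Sum.elim (fun j => y (i j)) x))) (y l)) ∧
    Algebra.trdeg ℂ (MvPolynomial (Fin n) ℂ ⧸
      (RingHom.ker (aeval x : MvPolynomial (Fin n) ℂ →ₐ[ℂ] E))) + (c : Cardinal) ≤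
        (n : Cardinal)

end Pool.Agent.Q72.EL
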